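import Pool.Agent.Lib.MP_7f581e_K.Spec5
import Pool.Agent.Lib.MP_7f581e_ntR.Pig

/-!
# C33, Part V: the extension given by a GA realisation is finite, Galois and regular
-/

set_option autoImplicit false

namespace MP7K.G5

namespace CstM

/-- conjugation is injective for a nonabelian simple group -/
theorem conj_inj (S : Type) [Group S] [IsSimpleGroup S] (h : ∃ a b : S, a * b ≠ b * a) :
    Function.Injective (MulAut.conj : S →* MulAut S) := by
  refine (injective_iff_map_eq_one _).2 fun s hs => ?_
  have h1 : s ∈ Subgroup.center S := by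
    rw [Subgroup.mem_center_iff]
    intro g
    have h2 : s * g * s⁻¹ = g := by
      rw [← MulAut.conj_apply, hs]
      rfl
    rw [eq_comm, ← mul_inv_eq_iff_eq_mul]
    exact h2
  rcases (inferInstance : (Subgroup.center S).Normal).eq_bot_or_eq_top with h3 | h3
  · rw [h3] at h1
    exact Subgroup.mem_bot.1 h1
  · exfalso
    obtain ⟨a, b, hab⟩ := h
    have h4 : b ∈ Subgroup.center S := by
      rw [h3]
      trivial
    exact hab (Subgroup.mem_center_iff.1 h4 a)

/-- a homomorphism from a nonabelian simple group to a commutative group is trivial -/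
theorem hom_trivial (S C : Type) [Group S] [IsSimpleGroup S] [Group C]
    (h : ∃ a b : S, a * b ≠ b * a) (hC : ∀ x y : C, x * y = y * x) (f : S →* C) (s : S) :
    f s = 1 := by
  rcases (inferInstance : f.ker.Normal).eq_bot_or_eq_top with h3 | h3
  · exfalso
    obtain ⟨a, b, hab⟩ := h
    have h4 : Function.Injective f := (MonoidHom.ker_eq_bot_iff f).1 h3
    apply hab
    apply h4
    rw [map_mul, map_mul, hC]
  · have h5 : s ∈ f.ker := by
      rw [h3]
      trivial
    exact h5

end CstM

theorem g5Cst : CstStmt := by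
  intro p _ S _ _ _ hS L _ _ a ha hfix
  classical
  let c : S →* (L ≃+* L) := a.comp MulAut.conj
  have hc : Function.Injective c := ha.comp (CstM.conj_inj S hS)
  letI act : MulSemiringAction S L := MulSemiringAction.compHom L c
  have hact : ∀ (s : S) (y : L), s • y = a (MulAut.conj s) y := fun s y => rfl
  have hfaith : FaithfulSMul S L := ⟨fun {s s'} h => hc (RingEquiv.ext fun y => h y)⟩
  have hbase : ∀ (s : S) (x : RatFunc (ZMod p)),
      s • algebraMap (RatFunc (ZMod p)) L x = algebraMap (RatFunc (ZMod p)) L x :=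
    fun s x => (hfix _).2 ⟨x, rfl⟩ s
  have hcomm : SMulCommClass S (RatFunc (ZMod p)) L := ⟨fun s x y => by
    rw [Algebra.smul_def, smul_mul', hbase, Algebra.smul_def]⟩
  have hinv : Algebra.IsInvariant (RatFunc (ZMod p)) L S := ⟨fun y hy => (hfix y).1 hy⟩
  have hgg : IsGaloisGroup S (RatFunc (ZMod p)) L := ⟨hfaith, hcomm, hinv⟩
  have hfd : FiniteDimensional (RatFunc (ZMod p)) L :=
    IsGaloisGroup.finiteDimensional S (RatFunc (ZMod p)) L
  have hgal : IsGalois (RatFunc (ZMod p)) L := IsGaloisGroup.isGalois S (RatFunc (ZMod p)) L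
  refine ⟨hfd, hgal, ?_, ?_⟩
  · intro τ
    obtain ⟨s, hs⟩ := (IsGaloisGroup.mulEquivAlgEquiv S (RatFunc (ZMod p)) L).surjective τ
    refine ⟨s, fun y => ?_⟩
    rw [← hs]
    rfl
  · rintro x ⟨f, hf0, hf⟩
    letI alg : Algebra (ZMod p) L :=
      ((algebraMap (RatFunc (ZMod p)) L).comp (algebraMap (ZMod p) (RatFunc (ZMod p)))).toAlgebra
    haveI htow : IsScalarTower (ZMod p) (RatFunc (ZMod p)) L :=
      IsScalarTower.of_algebraMap_eq (fun _ => rfl)
    have hx : IsIntegral (ZMod p) x := by
      rw [← isAlgebraic_iff_isIntegral]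
      exact ⟨f, hf0, hf⟩
    have hcomm2 : SMulCommClass S (ZMod p) L := ⟨fun s t y => by
      rw [Algebra.smul_def, smul_mul', Algebra.smul_def,
        IsScalarTower.algebraMap_apply (ZMod p) (RatFunc (ZMod p)) L, hbase]⟩
    let K0 : IntermediateField (ZMod p) L := IntermediateField.adjoin (ZMod p) {x}
    haveI hK0 : FiniteDimensional (ZMod p) K0 := IntermediateField.adjoin.finiteDimensional hx
    haveI hK1 : Finite K0 := Module.finite_of_finite (ZMod p)
    let ψ : S →* (L ≃ₐ[ZMod p] L) := MulSemiringAction.toAlgAut S (ZMod p) L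
    let χ : S →* (K0 ≃ₐ[ZMod p] K0) := (AlgEquiv.restrictNormalHom K0).comp ψ
    have hcy : ∀ u v : (K0 ≃ₐ[ZMod p] K0), u * v = v * u := by
      intro u v
      haveI : IsCyclic (K0 ≃ₐ[ZMod p] K0) := inferInstance
      exact IsCyclic.commGroup.mul_comm u v
    have hxK : x ∈ K0 := IntermediateField.mem_adjoin_simple_self (ZMod p) x
    have hfx : ∀ s : S, a (MulAut.conj s) x = x := by
      intro s
      have h1 := CstM.hom_trivial S _ hS hcy χ s
      have h2 := AlgEquiv.restrictNormal_commutes (ψ s) K0 ⟨x, hxK⟩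
      have h3 : (ψ s).restrictNormal K0 = 1 := h1
      rw [h3] at h2
      exact h2.symm
    obtain ⟨y, hy⟩ := (hfix x).1 hfx
    have hyi : IsIntegral (ZMod p) y := by
      rw [← hy] at hx
      exact (isIntegral_algebraMap_iff (algebraMap (RatFunc (ZMod p)) L).injective).1 hx
    obtain ⟨t, ht⟩ := MP7fR.ratFunc_isIntegral y hyi
    exact ⟨t, by rw [ht, hy]⟩

end MP7K.G5
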