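import Pool.Agent.Lib.MP_7f581e_K.Spec5

/-!
# C33 (MP_7f581e_nt), Part V, Ind: quotients of independent elements
-/

set_option autoImplicit false

namespace MP7K.G5

open Polynomial

private theorem indM_scale {K Ω : Type} [Field K] [Field Ω] [Algebra K Ω] {n : ℕ} {x : Fin n → Ω}
    (hx : AlgebraicIndependent K x) (c : Fin n → K) (hc : ∀ j, c j ≠ 0) :
    AlgebraicIndependent K (fun j => algebraMap K Ω (c j) * x j) := by
  rw [algebraicIndependent_iff_injective_aeval] at hx ⊢
  have e : (MvPolynomial.aeval (fun j => algebraMap K Ω (c j) * x j) :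
      MvPolynomial (Fin n) K →ₐ[K] Ω) = (MvPolynomial.aeval x).comp
        (MvPolynomial.aeval (fun j => MvPolynomial.C (c j) * MvPolynomial.X j)) := by
    ext j
    simp
  rw [e, AlgHom.coe_comp]
  refine hx.comp (Function.LeftInverse.injective (g := MvPolynomial.aeval
    (fun j => MvPolynomial.C (c j)⁻¹ * MvPolynomial.X j)) fun P => ?_)
  have e2 : ((MvPolynomial.aeval (fun j => MvPolynomial.C (c j)⁻¹ * MvPolynomial.X j)).comp
      (MvPolynomial.aeval (fun j => MvPolynomial.C (c j) * MvPolynomial.X j)) :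
      MvPolynomial (Fin n) K →ₐ[K] MvPolynomial (Fin n) K) = AlgHom.id K _ := by
    ext1 j
    simp only [AlgHom.comp_apply, MvPolynomial.aeval_X, map_mul, AlgHom.id_apply]
    rw [← MvPolynomial.algebraMap_eq, AlgHom.commutes, ← mul_assoc, ← map_mul,
      mul_inv_cancel₀ (hc j), map_one, one_mul]
  exact congrArg (fun f : MvPolynomial (Fin n) K →ₐ[K] MvPolynomial (Fin n) K => f P) e2

theorem g5Ind : IndStmt := by
  intro M Ω _ _ _ n W hW M₁ hM₁
  subst hM₁
  have h1 : AlgebraicIndependent M (Sum.elim (fun j => W (j, 0)) (fun j => W (j, 1))) := by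
    have h0 := hW.comp (Sum.elim (fun j : Fin n => (j, (0 : Fin 2)))
      (fun j : Fin n => (j, (1 : Fin 2)))) (by
        rintro (a | a) (b | b) h <;> simp_all)
    have e : W ∘ (Sum.elim (fun j : Fin n => (j, (0 : Fin 2)))
      (fun j : Fin n => (j, (1 : Fin 2)))) = Sum.elim (fun j => W (j, 0)) (fun j => W (j, 1)) := by
      ext (a | a) <;> rfl
    rw [e] at h0
    exact h0
  have h2 := (AlgebraicIndependent.sumElim_iff.1 h1).2
  have h3 : AlgebraicIndependent (IntermediateField.adjoin M (Set.range fun j => W (j, 1)))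
      (fun j => W (j, 0)) := IntermediateField.algebraicIndependent_adjoin_iff.2 h2
  have hne : ∀ j, W (j, 1) ≠ 0 := fun j => hW.ne_zero (j, 1)
  have hmem : ∀ j, (W (j, 1))⁻¹ ∈
      IntermediateField.adjoin M (Set.range fun j => W (j, 1)) := fun j =>
    inv_mem (IntermediateField.subset_adjoin M _ ⟨j, rfl⟩)
  have h4 := indM_scale h3 (fun j => ⟨(W (j, 1))⁻¹, hmem j⟩) (fun j h => by
    have h5 := congrArg Subtype.val h
    exact inv_ne_zero (hne j) h5)
  have e : (fun j => W (j, 0) / W (j, 1)) = fun j =>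
      algebraMap (IntermediateField.adjoin M (Set.range fun j => W (j, 1))) Ω
        ⟨(W (j, 1))⁻¹, hmem j⟩ * W (j, 0) := by
    funext j
    rw [div_eq_inv_mul]
    rfl
  rw [e]
  exact h4

end MP7K.G5
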