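import Pool.Agent.Lib.MP_7f581e_K.Spec5

/-!
# C33, Part V: the automorphisms of the rational function field are Moebius transformations (helper86)
-/

set_option autoImplicit false

namespace MP7K.G5

namespace MobM

open Polynomial

theorem lin_eq {K : Type} [Field K] (a b : K) :
    algebraMap K[X] (RatFunc K) (C a * X + C b) = RatFunc.C a * RatFunc.X + RatFunc.C b := by
  rw [map_add, map_mul, RatFunc.algebraMap_C, RatFunc.algebraMap_C, RatFunc.algebraMap_X]

theorem second {K : Type} [Field K] (a b c d : K)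
    (h : (RatFunc.X : RatFunc K) * (RatFunc.C c * RatFunc.X + RatFunc.C d) =
      RatFunc.C a * RatFunc.X + RatFunc.C b) : c = 0 ∧ b = 0 ∧ a = d := by
  rw [← lin_eq, ← lin_eq, ← RatFunc.algebraMap_X, ← map_mul] at h
  have h1 : (X * (C c * X + C d) : K[X]) = C a * X + C b := RatFunc.algebraMap_injective K h
  have c0 := congrArg (fun q : K[X] => q.coeff 0) h1
  have c1 := congrArg (fun q : K[X] => q.coeff 1) h1
  have c2 := congrArg (fun q : K[X] => q.coeff 2) h1
  simp [coeff_X, coeff_C] at c0 c1 c2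
  exact ⟨c2, c0.symm, c1.symm⟩

open IntermediateField in
theorem first {K : Type} [Field K] (τ : RatFunc K ≃ₐ[K] RatFunc K) :
    ∃ a b c d : K, a * d - b * c ≠ 0 ∧
      τ RatFunc.X * (RatFunc.C c * RatFunc.X + RatFunc.C d) =
        RatFunc.C a * RatFunc.X + RatFunc.C b := by
  set f := τ RatFunc.X with hf
  have hadj : K⟮f⟯ = ⊤ := by
    have h1 : (K⟮(RatFunc.X : RatFunc K)⟯).map (τ : RatFunc K →ₐ[K] RatFunc K) = K⟮f⟯ := by
      rw [IntermediateField.adjoin_map, Set.image_singleton]
      rfl
    rw [← h1, RatFunc.adjoin_X, eq_top_iff]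
    intro x _
    exact ⟨τ.symm x, IntermediateField.mem_top, τ.apply_symm_apply x⟩
  have hdeg : max f.num.natDegree f.denom.natDegree = 1 := by
    rw [← RatFunc.finrank_eq_max_natDegree, hadj]
    exact IntermediateField.finrank_top
  have hn : f.num.natDegree ≤ 1 := by omega
  have hd : f.denom.natDegree ≤ 1 := by omega
  have hn' := eq_X_add_C_of_natDegree_le_one hn
  have hd' := eq_X_add_C_of_natDegree_le_one hd
  have hd0 : algebraMap K[X] (RatFunc K) f.denom ≠ 0 :=
    RatFunc.algebraMap_ne_zero (RatFunc.denom_ne_zero f)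
  have hfd : f * algebraMap K[X] (RatFunc K) f.denom = algebraMap K[X] (RatFunc K) f.num :=
    ((div_eq_iff hd0).1 (RatFunc.num_div_denom f)).symm
  refine ⟨f.num.coeff 1, f.num.coeff 0, f.denom.coeff 1, f.denom.coeff 0, ?_, ?_⟩
  · intro hdet
    have hprop : C (f.num.coeff 1) * f.denom = C (f.denom.coeff 1) * f.num := by
      have e1 : C (f.num.coeff 1) * f.denom =
          C (f.num.coeff 1) * (C (f.denom.coeff 1) * X + C (f.denom.coeff 0)) := by rw [← hd']
      have e2 : C (f.denom.coeff 1) * f.num =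
          C (f.denom.coeff 1) * (C (f.num.coeff 1) * X + C (f.num.coeff 0)) := by rw [← hn']
      have e3 : C (f.num.coeff 1) * C (f.denom.coeff 0) =
          (C (f.num.coeff 0) * C (f.denom.coeff 1) : K[X]) := by
        rw [← C_mul, ← C_mul, sub_eq_zero.1 hdet]
      rw [e1, e2]
      linear_combination e3
    have hd1 : f.denom.coeff 1 ≠ 0 := by
      intro h0
      rw [h0, C_0, zero_mul] at hprop
      have h1 : f.num.coeff 1 = 0 := by
        rcases mul_eq_zero.1 hprop with h | h
        · exact C_eq_zero.1 h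
        · exact absurd h (RatFunc.denom_ne_zero f)
      rw [h0, C_0, zero_mul, zero_add] at hd'
      rw [h1, C_0, zero_mul, zero_add] at hn'
      rw [hn', hd', natDegree_C, natDegree_C] at hdeg
      simp at hdeg
    have hfc : f = RatFunc.C (f.num.coeff 1 / f.denom.coeff 1) := by
      have h1 := congrArg (algebraMap K[X] (RatFunc K)) hprop
      rw [map_mul, map_mul, ← hfd, RatFunc.algebraMap_C, RatFunc.algebraMap_C, ← mul_assoc] at h1
      have h2 := mul_right_cancel₀ hd0 h1
      have h3 : (RatFunc.C (f.denom.coeff 1) : RatFunc K) ≠ 0 := by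
        rw [Ne, map_eq_zero]
        exact hd1
      rw [map_div₀, eq_div_iff h3, h2, mul_comm]
    rw [hfc, RatFunc.num_C, RatFunc.denom_C, natDegree_C, natDegree_one] at hdeg
    simp at hdeg
  · rw [← lin_eq, ← lin_eq, ← hn', ← hd']
    exact hfd

end MobM

theorem g5Mob : MobStmt := by
  intro p _
  refine ⟨fun σ => ?_, fun A hA => ?_⟩
  · let τ : RatFunc (ZMod p) ≃ₐ[ZMod p] RatFunc (ZMod p) := AlgEquiv.ofRingEquiv (f := σ) (by
      intro x
      have h1 : (σ : RatFunc (ZMod p) →+* RatFunc (ZMod p)).comp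
          (algebraMap (ZMod p) (RatFunc (ZMod p))) = algebraMap (ZMod p) (RatFunc (ZMod p)) :=
        Subsingleton.elim _ _
      exact congrArg (fun φ => φ x) h1)
    obtain ⟨a, b, c, d, h1, h2⟩ := MobM.first τ
    refine ⟨!![a, b; c, d], ?_, ?_⟩
    · rw [Matrix.det_fin_two_of]
      exact h1
    · exact h2
  · exact MobM.second _ _ _ _ hA

end MP7K.G5
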