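import Pool.Agent.Lib.MP_7f581e_K.Spec5

/-!
# C33, Part V: a free orbit (helper86)
-/

set_option autoImplicit false

namespace MP7K.G5

open IntermediateField in
theorem g5Orb : OrbStmt := by
  intro L _ A _ _ a ha
  let _ : MulSemiringAction A L := MulSemiringAction.compHom L a
  have hsmul : ∀ (α : A) (x : L), α • x = a α x := fun _ _ => rfl
  let F := FixedPoints.subfield A L
  have hsep : Algebra.IsSeparable F L := inferInstance
  have hfin : FiniteDimensional F L := inferInstance
  obtain ⟨x, hx⟩ := Field.exists_primitive_element F L
  refine ⟨x, fun α β hαβ => ?_⟩
  have hγ : ∀ y : L, a α y = a β y := by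
    intro y
    have h1 : ∀ γ : A, ∀ z : F, γ • (z : L) = z := fun γ z => z.2 γ
    let K : IntermediateField F L :=
      { carrier := {y | a α y = a β y}
        mul_mem' := fun {y z} hy hz => by
          change a α (y * z) = a β (y * z)
          rw [map_mul, map_mul, show a α y = a β y from hy, show a α z = a β z from hz]
        add_mem' := fun {y z} hy hz => by
          change a α (y + z) = a β (y + z)
          rw [map_add, map_add, show a α y = a β y from hy, show a α z = a β z from hz]
        algebraMap_mem' := fun z => by
          change a α (z : L) = a β (z : L)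
          rw [← hsmul, ← hsmul, h1, h1]
        inv_mem' := fun y hy => by
          change a α y⁻¹ = a β y⁻¹
          rw [map_inv₀, map_inv₀, show a α y = a β y from hy] }
    have h2 : F⟮x⟯ ≤ K := by
      rw [IntermediateField.adjoin_simple_le_iff]
      exact hαβ
    rw [hx] at h2
    exact h2 IntermediateField.mem_top
  exact ha (RingEquiv.ext hγ)

end MP7K.G5
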