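import Pool.Agent.Lib.MP_7f581e_K.Spec5

/-!
# C33, Part V: twisted descent for a matrix representation (helper86, after helper11)
-/

set_option autoImplicit false
set_option linter.unusedSimpArgs false
set_option linter.unusedSectionVars false

namespace MP7K.G5

namespace TwistM

open MvPolynomial

attribute [local instance] MvPolynomial.algebraMvPolynomial

section coeff

variable {K M : Type} [Field K] [Field M] [Algebra K M] {I : Type}

/-- the action on coefficients -/
@[implicit_reducible]
noncomputable def actB (K M : Type) [Field K] [Field M] [Algebra K M] (I : Type) :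
    MulSemiringAction (M ≃ₐ[K] M) (MvPolynomial I M) where
  smul g p := MvPolynomial.map (g : M →+* M) p
  one_smul p := by
    change MvPolynomial.map (((1 : M ≃ₐ[K] M)) : M →+* M) p = p
    have : (((1 : M ≃ₐ[K] M)) : M →+* M) = RingHom.id M := rfl
    rw [this, MvPolynomial.map_id]
  mul_smul g h p := by
    change MvPolynomial.map _ p = MvPolynomial.map _ (MvPolynomial.map _ p)
    rw [MvPolynomial.map_map]
    rfl
  smul_zero g := map_zero _
  smul_add g p q := map_add _ _ _
  smul_one g := map_one _
  smul_mul g p q := map_mul _ _ _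

/-- the action on coefficients -/
@[implicit_reducible]
noncomputable def actS (K M : Type) [Field K] [Field M] [Algebra K M] (I : Type) :
    SMul (M ≃ₐ[K] M) (MvPolynomial I M) := (actB K M I).toSMul

attribute [local instance 3000] actB
attribute [local instance 3000] actS

theorem smul_def' (g : M ≃ₐ[K] M) (p : MvPolynomial I M) :
    g • p = MvPolynomial.map (g : M →+* M) p := rfl

theorem smul_C (g : M ≃ₐ[K] M) (m : M) :
    g • (C m : MvPolynomial I M) = C (g m) := by
  rw [smul_def', MvPolynomial.map_C]; rfl

theorem isGaloisGroup [FiniteDimensional K M] [IsGalois K M] :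
    IsGaloisGroup (M ≃ₐ[K] M) (MvPolynomial I K) (MvPolynomial I M) where
  faithful := ⟨fun {g h} H => by
    ext m
    have := H (C m)
    rw [smul_C, smul_C] at this
    exact MvPolynomial.C_injective _ _ this⟩
  commutes := ⟨fun g a b => by
    rw [Algebra.smul_def, Algebra.smul_def, smul_def', smul_def', map_mul]
    congr 1
    change MvPolynomial.map _ (MvPolynomial.map (algebraMap K M) a) =
      MvPolynomial.map (algebraMap K M) a
    rw [MvPolynomial.map_map]
    have hg : ((g : M ≃ₐ[K] M) : M →+* M).comp (algebraMap K M) = algebraMap K M := by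
      ext x
      simp
    rw [hg]⟩
  isInvariant := ⟨fun p hp => by
    have h1 : p ∈ Set.range (MvPolynomial.map (σ := I) (algebraMap K M)) := by
      rw [MvPolynomial.mem_range_map_iff_coeffs_subset]
      intro c hc
      rw [Finset.mem_coe, MvPolynomial.mem_coeffs_iff] at hc
      obtain ⟨n, hn, rfl⟩ := hc
      have : ∀ g : M ≃ₐ[K] M, g (p.coeff n) = p.coeff n := by
        intro g
        have := congrArg (MvPolynomial.coeff n) (hp g)
        rw [smul_def', MvPolynomial.coeff_map] at this
        exact this
      exact (IsGalois.mem_range_algebraMap_iff_fixed _).2 this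
    obtain ⟨a, ha⟩ := h1
    exact ⟨a, ha⟩⟩

end coeff

section lin

variable {K M : Type} [Field K] [Field M] [Algebra K M] [FiniteDimensional K M] [IsGalois K M]
  {I : Type} [Fintype I] [DecidableEq I] (R : (M ≃ₐ[K] M) →* Matrix I I K)

/-- the equivariant vectors -/
noncomputable def bvec (c : M) (i : I) : I → M := fun j =>
  ∑ h : M ≃ₐ[K] M, algebraMap K M (R h j i) * h c

theorem bvec_equiv (c : M) (i j : I) (g : M ≃ₐ[K] M) :
    ∑ l, algebraMap K M (R g j l) * g (bvec R c i l) = bvec R c i j := by
  unfold bvec
  have h1 : ∀ l, algebraMap K M (R g j l) * g (∑ h : M ≃ₐ[K] M, algebraMap K M (R h l i) * h c) =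
      ∑ h : M ≃ₐ[K] M, algebraMap K M (R g j l * R h l i) * g (h c) := by
    intro l
    rw [map_sum, Finset.mul_sum]
    refine Finset.sum_congr rfl fun h _ => ?_
    rw [map_mul, AlgEquiv.commutes, map_mul, mul_assoc]
  rw [Finset.sum_congr rfl fun l _ => h1 l, Finset.sum_comm]
  refine Fintype.sum_equiv (Equiv.mulLeft g) _ _ fun h => ?_
  rw [Equiv.coe_mulLeft, map_mul, AlgEquiv.mul_apply, Matrix.mul_apply, map_sum, Finset.sum_mul]

theorem span_bvec :
    Submodule.span M (Set.range fun ci : M × I => bvec R ci.1 ci.2) = ⊤ := by
  classical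
  by_contra hne
  obtain ⟨f, hf0, hf⟩ := Submodule.exists_le_ker_of_lt_top _ (lt_top_iff_ne_top.2 hne)
  apply hf0
  have hfi : ∀ i, f (Pi.single i 1) = 0 := by
    intro i
    -- the functional composed with the vectors
    have key : ∀ c : M, ∑ h : M ≃ₐ[K] M,
        (∑ j, f (Pi.single j 1) * algebraMap K M (R h j i)) * h c = 0 := by
      intro c
      have h1 : f (bvec R c i) = 0 := hf (Submodule.subset_span ⟨(c, i), rfl⟩)
      have h2 : bvec R c i =
          ∑ h : M ≃ₐ[K] M, ∑ j, (algebraMap K M (R h j i) * h c) • (Pi.single j (1 : M)) := by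
        funext j
        rw [Finset.sum_apply]
        unfold bvec
        refine Finset.sum_congr rfl fun h _ => ?_
        rw [Finset.sum_apply, Finset.sum_eq_single j]
        · rw [Pi.smul_apply, smul_eq_mul, Pi.single_eq_same, mul_one]
        · intro l _ hl
          rw [Pi.smul_apply, smul_eq_mul, Pi.single_eq_of_ne (Ne.symm hl), mul_zero]
        · intro h
          exact absurd (Finset.mem_univ _) h
      rw [h2, map_sum] at h1
      rw [← h1]
      refine Finset.sum_congr rfl fun h _ => ?_
      rw [map_sum, Finset.sum_mul]
      refine Finset.sum_congr rfl fun j _ => ?_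
      rw [map_smul, smul_eq_mul]
      ring
    -- Dedekind
    let T : (M ≃ₐ[K] M) → (M →* M) := fun h => ((h : M →+* M) : M →* M)
    have hT : Function.Injective T := by
      intro a b hab
      ext x
      exact DFunLike.congr_fun hab x
    have hli : LinearIndependent M (fun h : M ≃ₐ[K] M => (T h : M → M)) :=
      (linearIndependent_monoidHom M M).comp T hT
    rw [Fintype.linearIndependent_iff] at hli
    have := hli (fun h => ∑ j, f (Pi.single j 1) * algebraMap K M (R h j i)) (by
      funext c
      rw [Finset.sum_apply]
      exact key c) 1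
    rw [map_one, Finset.sum_eq_single i] at this
    · rwa [Matrix.one_apply_eq, map_one, mul_one] at this
    · intro j _ hj
      rw [Matrix.one_apply_ne hj, map_zero, mul_zero]
    · intro h
      exact absurd (Finset.mem_univ _) h
  refine LinearMap.pi_ext' fun i => ?_
  ext
  simpa using hfi i

/-- an equivariant basis -/
theorem exists_basis :
    ∃ β : Module.Basis I M (I → M),
    ∀ i j (g : M ≃ₐ[K] M), ∑ l, algebraMap K M (R g j l) * g (β i l) = β i j := by
  classical
  set s : Set (I → M) := Set.range fun ci : M × I => bvec R ci.1 ci.2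
  have hs : ⊤ ≤ Submodule.span M s := (span_bvec R).ge
  let b := Module.Basis.ofSpan hs
  have hb : ∀ x, b x ∈ s := fun x => Module.Basis.ofSpan_subset hs ⟨x, rfl⟩
  let e := b.indexEquiv (Pi.basisFun M I)
  refine ⟨b.reindex e, fun i j g => ?_⟩
  rw [Module.Basis.reindex_apply]
  obtain ⟨⟨c, l⟩, hcl⟩ := hb (e.symm i)
  rw [← hcl]
  exact bvec_equiv R c l j g

end lin

section main

attribute [local instance] FractionRing.liftAlgebra
attribute [local instance 3000] actB
attribute [local instance 3000] actS

variable {M I : Type} [Field M] [Fintype I] [DecidableEq I]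

theorem exists_inverse (β : Module.Basis I M (I → M)) :
    ∃ γ : I → I → M,
      (∀ l i, ∑ j, γ l j * β i j = if l = i then 1 else 0) ∧
      (∀ j j', ∑ i, β i j * γ i j' = if j = j' then 1 else 0) := by
  refine ⟨fun l j => β.toMatrix (Pi.basisFun M I) l j, fun l i => ?_, fun j j' => ?_⟩
  · have h := congrFun (congrFun (β.toMatrix_mul_toMatrix_flip (Pi.basisFun M I)) l) i
    rw [Matrix.mul_apply, Matrix.one_apply] at h
    rw [← h]
    refine Finset.sum_congr rfl fun j _ => ?_
    simp [Module.Basis.toMatrix_apply]
  · have h := congrFun (congrFun ((Pi.basisFun M I).toMatrix_mul_toMatrix_flip β) j) j'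
    rw [Matrix.mul_apply, Matrix.one_apply] at h
    rw [← h]
    refine Finset.sum_congr rfl fun i _ => ?_
    simp [Module.Basis.toMatrix_apply]

/-- the linear coordinates -/
noncomputable def Paff (β : I → I → M) (j : I) : MvPolynomial I M := ∑ i, C (β i j) * X i

theorem Paff_inv (β γ : I → I → M)
    (h1 : ∀ l i, ∑ j, γ l j * β i j = if l = i then 1 else 0) (l : I) :
    ∑ j, C (γ l j) * Paff β j = (X l : MvPolynomial I M) := by
  have : ∀ j, C (γ l j) * Paff β j =
      ∑ i, (C (γ l j * β i j) * X i : MvPolynomial I M) := by
    intro j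
    unfold Paff
    rw [Finset.mul_sum]
    refine Finset.sum_congr rfl fun i _ => ?_
    rw [C_mul]; ring
  rw [Finset.sum_congr rfl fun j _ => this j, Finset.sum_comm]
  have h2 : ∀ i, ∑ j, (C (γ l j * β i j) * X i : MvPolynomial I M) =
      if l = i then X i else 0 := by
    intro i
    rw [← Finset.sum_mul, ← map_sum, h1]
    split_ifs <;> simp
  rw [Finset.sum_congr rfl fun i _ => h2 i]
  simp

theorem Paff_algInd (β γ : I → I → M)
    (h2 : ∀ j j', ∑ i, β i j * γ i j' = if j = j' then 1 else 0) :
    AlgebraicIndependent M (Paff β) := by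
  rw [AlgebraicIndependent]
  let Ψ : MvPolynomial I M →ₐ[M] MvPolynomial I M :=
    aeval fun l => ∑ j, C (γ l j) * X j
  have hid : Ψ.comp (aeval (Paff β)) = AlgHom.id M _ := by
    refine MvPolynomial.algHom_ext fun j => ?_
    rw [AlgHom.comp_apply, aeval_X, AlgHom.id_apply]
    unfold Paff
    rw [map_sum]
    have e1 : ∀ i, Ψ (C (β i j) * X i) =
        ∑ j', (C (β i j * γ i j') * X j' : MvPolynomial I M) := by
      intro i
      rw [map_mul, aeval_X, Finset.mul_sum]
      refine Finset.sum_congr rfl fun j' _ => ?_
      have : Ψ (C (β i j)) = C (β i j) := Ψ.commutes (β i j)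
      rw [this, C_mul]; ring
    rw [Finset.sum_congr rfl fun i _ => e1 i, Finset.sum_comm]
    have e2 : ∀ j', ∑ i, (C (β i j * γ i j') * X j' : MvPolynomial I M) =
        if j = j' then X j' else 0 := by
      intro j'
      rw [← Finset.sum_mul, ← map_sum, h2]
      split_ifs <;> simp
    rw [Finset.sum_congr rfl fun j' _ => e2 j']
    simp
  intro a b hab
  have := congrArg Ψ hab
  rw [← AlgHom.comp_apply, ← AlgHom.comp_apply, hid] at this
  simpa using this

end main

end TwistM

attribute [local instance] MvPolynomial.algebraMvPolynomial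
attribute [local instance] FractionRing.liftAlgebra
attribute [local instance 3000] TwistM.actB
attribute [local instance 3000] TwistM.actS

open TwistM MvPolynomial in
theorem g5Twist : TwistStmt := by
  intro K M _ _ _ _ _ I _ _ R
  obtain ⟨β, hβ⟩ := exists_basis R
  obtain ⟨γ, hγ1, hγ2⟩ := exists_inverse β
  let A := MvPolynomial I K
  let B := MvPolynomial I M
  let G := M ≃ₐ[K] M
  have hGal : IsGaloisGroup G A B := isGaloisGroup
  have : FaithfulSMul A B := by
    rw [faithfulSMul_iff_algebraMap_injective]
    exact MvPolynomial.map_injective _ (algebraMap K M).injective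
  have : FaithfulSMul A (FractionRing B) := inferInstance
  let actN : MulSemiringAction G (FractionRing B) :=
    IsFractionRing.mulSemiringAction G B (FractionRing B)
  have hdist : SMulDistribClass G B (FractionRing B) := inferInstance
  have hN : IsGaloisGroup G (FractionRing A) (FractionRing B) :=
    IsGaloisGroup.toFractionRing G A B
  have h1 : IsGalois (FractionRing A) (FractionRing B) := IsGaloisGroup.isGalois G _ _
  have h2 : FiniteDimensional (FractionRing A) (FractionRing B) :=
    IsGaloisGroup.finiteDimensional G _ _
  have h30 : Function.Injective (algebraMap (FractionRing A) (FractionRing B)) :=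
    RingHom.injective (algebraMap (FractionRing A) (FractionRing B))
  have h3 : FaithfulSMul (FractionRing A) (FractionRing B) := by
    rw [faithfulSMul_iff_algebraMap_injective]
    exact h30
  let ι := IsGaloisGroup.mulEquivAlgEquiv G (FractionRing A) (FractionRing B)
  have hι : ∀ g (b : B), ι g (algebraMap B (FractionRing B) b) =
      algebraMap B (FractionRing B) (MvPolynomial.map (g : M →+* M) b) := by
    intro g b
    have : ι g (algebraMap B (FractionRing B) b) = g • (algebraMap B (FractionRing B) b) := rfl
    rw [this, ← algebraMap.coe_smul']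
    rfl
  have hMN : ∀ m : M, algebraMap M (FractionRing B) m = algebraMap B (FractionRing B) (C m) := by
    intro m
    rw [IsScalarTower.algebraMap_apply M B (FractionRing B)]
    rfl
  have hinj : Function.Injective (algebraMap B (FractionRing B)) := IsFractionRing.injective B _
  let P : I → B := Paff (fun i j => β i j)
  refine ⟨FractionRing B, inferInstance, inferInstance, inferInstance, ι,
    fun j => algebraMap B (FractionRing B) (P j), h2, h1, ?_, ?_, ?_, ?_, ?_⟩
  · intro g m
    rw [hMN, hMN, hι, MvPolynomial.map_C]
    rfl
  · intro g j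
    have hP : ∑ l, C (algebraMap K M (R g j l)) * MvPolynomial.map (g : M →+* M) (P l) = P j := by
      change ∑ l, C (algebraMap K M (R g j l)) *
        MvPolynomial.map (g : M →+* M) (∑ i, C (β i l) * X i) = ∑ i, C (β i j) * X i
      have e1 : ∀ x, (g : M →+* M) x = g x := fun _ => rfl
      have e2 : ∀ l, C (algebraMap K M (R g j l)) *
          MvPolynomial.map (g : M →+* M) (∑ i, C (β i l) * X i) =
          ∑ i, (C (algebraMap K M (R g j l) * g (β i l)) * X i : MvPolynomial I M) := by
        intro l
        rw [map_sum, Finset.mul_sum]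
        refine Finset.sum_congr rfl fun i _ => ?_
        rw [map_mul, MvPolynomial.map_C, MvPolynomial.map_X, e1, C_mul, mul_assoc]
      rw [Finset.sum_congr rfl fun l _ => e2 l, Finset.sum_comm]
      refine Finset.sum_congr rfl fun i _ => ?_
      rw [← Finset.sum_mul, ← map_sum, hβ]
    beta_reduce
    conv_rhs => rw [← hP]
    rw [map_sum]
    refine Finset.sum_congr rfl fun l _ => ?_
    rw [hι, map_mul, ← hMN]
  · have hP : AlgebraicIndependent M P := Paff_algInd (fun i j => β i j) γ hγ2
    let f : B →ₐ[M] FractionRing B := IsScalarTower.toAlgHom M B (FractionRing B)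
    exact hP.map' (f := f) hinj
  · rw [eq_top_iff]
    intro x _
    have hB : ∀ b : B, algebraMap B (FractionRing B) b ∈
        IntermediateField.adjoin M (Set.range fun j => algebraMap B (FractionRing B) (P j)) := by
      intro b
      induction b using MvPolynomial.induction_on with
      | C a => rw [← hMN]; exact IntermediateField.algebraMap_mem _ a
      | add p q hp hq => rw [map_add]; exact add_mem hp hq
      | mul_X p l hp =>
        rw [map_mul]
        refine mul_mem hp ?_
        rw [← Paff_inv (fun i j => β i j) γ hγ1 l, map_sum]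
        refine sum_mem fun j _ => ?_
        rw [map_mul]
        refine mul_mem ?_ ?_
        · rw [← hMN]; exact IntermediateField.algebraMap_mem _ _
        · exact IntermediateField.subset_adjoin _ _ ⟨j, rfl⟩
    obtain ⟨a, b, hb, rfl⟩ := IsFractionRing.div_surjective B x
    exact div_mem (hB a) (hB b)
  · intro a
    rw [hMN, IsScalarTower.algebraMap_apply K A (FractionRing A),
      ← IsScalarTower.algebraMap_apply A (FractionRing A) (FractionRing B),
      IsScalarTower.algebraMap_apply A B (FractionRing B)]
    congr 1
    exact (MvPolynomial.map_C _ a).symm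

end MP7K.G5
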