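import Pool.Agent.Lib.MP_7f581e_K.G5.Main
import Pool.Agent.Lib.MP_7f581e_K.G5.Twist
import Pool.Agent.Lib.MP_7f581e_K.G5.Mob
import Pool.Agent.Lib.MP_7f581e_K.G5.Cst
import Pool.Agent.Lib.MP_7f581e_K.G5.Orb
import Pool.Agent.Lib.MP_7f581e_K.G5.Ind

/-!
# C33 (MP_7f581e_nt), Part V: simple groups with a GA realisation, final form
-/

set_option autoImplicit false

namespace MP7K.G5

open MP7fR

/-- **Closure under extensions with kernel a power of a simple group with a GA realisation.** -/
theorem gaStep {p : ℕ} [Fact p.Prime] (hS : SolvS p) : GAStep p :=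
  occ_ga g5Twist g5Mob g5Cst g5Orb g5Ind hS

end MP7K.G5
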