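import Pool.Agent.Lib.MP_7f581e_K.G5.All
import Pool.Agent.Lib.MP_7f581e_K.F.LieC

/-!
# C33 (MP_7f581e_nt), Part V: the step for groups with a GA realisation, in the language of `F`
-/

set_option autoImplicit false

namespace MP7K

open MP7fR

/-- **Closure under extensions with kernel a power of a simple group with a GA realisation.** -/
theorem lieC_ga {p : ℕ} [Fact p.Prime] (hS : SolvC p) :
    LieC p (fun S [Group S] => HasGA p S) :=
  fun G _ _ E _ _ f hf S _ _ κ _ hga hθ hG => G5.gaStep hS E G f hf S κ hga hθ hG

end MP7K
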