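import Pool.Agent.Lib.MP_7f581e_K.G5.All
import Pool.Agent.Lib.MP_7f581e_K.V.Fin

/-!
# C33 (MP_7f581e_nt), Part V: the step for groups with a GA realisation, in the language of `V`
-/

set_option autoImplicit false

namespace MP7K

open MP7Z MP7fR MP7fC MP7fE

/-- **The step for kernels which are powers of a simple group with a GA realisation.** -/
theorem rStep_ga {p : ℕ} [Fact p.Prime] (hS : SolvRz p) :
    RStep p (fun S [Group S] => HasGA p S) :=
  G5.gaStep fun G _ _ E _ _ f hf hs hG => hasRz_iff.1 (hS G (hasRz_iff.2 hG) E f hf hs)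

end MP7K
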