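import Pool.Agent.Lib.MP_7f581e_ntK.Core
import Pool.Agent.Lib.MP_7f581e_K.Spec5

/-!
# C33 (MP_7f581e_nt), Part V: the core

Realisation of an extension with kernel `S ^ n`, `S` a simple group with a GA realisation, over
the field of invariants of a linear action.  Adapted from `MP_7f581e_ntK/Core.lean`.
-/

set_option autoImplicit false
set_option linter.unusedSectionVars false

namespace MP7K.G5

open Polynomial Equiv MP7fR MP7fA MP7fK

section core

variable {p : ℕ} [Fact p.Prime] {L₀ : Type} [Field L₀] [Algebra (RatFunc (ZMod p)) L₀]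
  [FiniteDimensional (RatFunc (ZMod p)) L₀] [IsGalois (RatFunc (ZMod p)) L₀]
  {K M F N : Type} [Field K] [Field M] [Field F] [Field N] [Algebra K M]
  [Algebra F N] [Algebra M N] [FiniteDimensional F N] [IsGalois F N] {n : ℕ}
  [Algebra (ZMod p) K] {S : Type} [Group S] [Finite S]

instance conj_range_normal : (MulAut.conj (G := S)).range.Normal := by
  constructor
  rintro _ ⟨s, rfl⟩ α
  refine ⟨α s, ?_⟩
  ext x
  simp [MulAut.mul_apply]

theorem core_aux (hInd : IndStmt) [Algebra K F] (Ω : Type) [Field Ω] [Algebra N Ω] [Algebra F Ω]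
    [IsScalarTower F N Ω] [Algebra M Ω] [IsScalarTower M N Ω] [Algebra K Ω] [IsScalarTower K M Ω]
    [Algebra (ZMod p) Ω] [IsScalarTower (ZMod p) K Ω]
    [IsSepClosed Ω] [IsGalois F Ω]
    (pb : PowerBasis (RatFunc (ZMod p)) L₀)
    (hirr : ∀ (K₁ : Type) [Field K₁] [Algebra (ZMod p) K₁],
      Irreducible ((minpoly (RatFunc (ZMod p)) pb.gen).map (tau (ZMod p) K₁)))
    (a : MulAut S →* (L₀ ≃+* L₀))
    (hfix : ∀ (s : S) (x : RatFunc (ZMod p)),
      a (MulAut.conj s) (algebraMap _ L₀ x) = algebraMap _ L₀ x)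
    (hgal : ∀ τ : L₀ ≃ₐ[RatFunc (ZMod p)] L₀, ∃ s : S, ∀ y, τ y = a (MulAut.conj s) y)
    (x₀ : L₀) (hx₀ : Function.Injective fun α : MulAut S => a α x₀)
    (ι : (M ≃ₐ[K] M) ≃* (N ≃ₐ[F] N))
    (act : (M ≃ₐ[K] M) →* Perm (Fin n))
    (A : (M ≃ₐ[K] M) → Fin n → Matrix (Fin 2) (Fin 2) (ZMod p)) (W : Fin n × Fin 2 → N)
    (hKFN : ∀ a : K, algebraMap M N (algebraMap K M a) = algebraMap F N (algebraMap K F a))
    (hι : ∀ g m, ι g (algebraMap M N m) = algebraMap M N (g m))
    (hιW : ∀ g j c, ∑ c' : Fin 2, algebraMap M N (algebraMap K M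
      (algebraMap (ZMod p) K (A g j c c'))) * ι g (W (j, c')) = W (act g j, c))
    (hind : AlgebraicIndependent M W)
    (hgenN : IntermediateField.adjoin M (Set.range W) = ⊤)
    {E : Type} [Group E] (cls : E →* (M ≃ₐ[K] M)) (hcls : Function.Surjective cls)
    (T : E → Fin n → MulAut S)
    (hT1 : ∀ e e' j, T (e * e') j = T e (act (cls e') j) * T e' j)
    (hTN : ∀ m, cls m = 1 → ∀ j, ∃ s, T m j = MulAut.conj s)
    (hT3 : ∀ (e : E) (τ : Fin n → MulAut S), (∀ j, ∃ s, (T e j)⁻¹ * τ j = MulAut.conj s) →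
      ∃! e' : E, cls e' = cls e ∧ T e' = τ)
    (hA : ∀ e j, (A (cls e) j).det ≠ 0 ∧
      a (T e j)⁻¹ (algebraMap (RatFunc (ZMod p)) L₀ RatFunc.X) *
        algebraMap (RatFunc (ZMod p)) L₀ (RatFunc.C (A (cls e) j 1 0) * RatFunc.X +
          RatFunc.C (A (cls e) j 1 1)) =
        algebraMap (RatFunc (ZMod p)) L₀ (RatFunc.C (A (cls e) j 0 0) * RatFunc.X +
          RatFunc.C (A (cls e) j 0 1))) :
    ∃ (L : Type) (_ : Field L) (_ : Algebra F L) (_ : FiniteDimensional F L)
      (_ : IsGalois F L) (e' : (L ≃ₐ[F] L) ≃* E) (j : M →+* L),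
      (∀ a : K, j (algebraMap K M a) = algebraMap F L (algebraMap K F a)) ∧
      ∀ (σ : L ≃ₐ[F] L) (x : M), σ (j x) = j (cls (e' σ) x) := by
  classical
  let _ : Algebra (ZMod p) M := ((algebraMap K M).comp (algebraMap (ZMod p) K)).toAlgebra
  have htowkKM : IsScalarTower (ZMod p) K M := IsScalarTower.of_algebraMap_eq fun _ => rfl
  have htowkMΩ : IsScalarTower (ZMod p) M Ω := IsScalarTower.of_algebraMap_eq fun a => by
    rw [IsScalarTower.algebraMap_apply (ZMod p) K Ω, IsScalarTower.algebraMap_apply K M Ω]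
    rfl
  obtain ⟨EE, hEE⟩ : ∃ EE : Fin n × Fin 2 → Ω, ∀ j, EE j = algebraMap N Ω (W j) :=
    ⟨_, fun _ => rfl⟩
  have hEE' : EE = algebraMap N Ω ∘ W := funext hEE
  have hindΩ : AlgebraicIndependent M EE := by
    rw [hEE']
    exact hind.map' (f := IsScalarTower.toAlgHom M N Ω) (algebraMap N Ω).injective
  let M₁ : IntermediateField M Ω := IntermediateField.adjoin M (Set.range fun j => EE (j, 1))
  have hindt : AlgebraicIndependent M₁ (fun j => EE (j, 0) / EE (j, 1)) :=
    hInd M Ω n EE hindΩ M₁ rfl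
  obtain ⟨tt, htt⟩ : ∃ tt : Fin n → Ω, ∀ j, tt j = EE (j, 0) / EE (j, 1) := ⟨_, fun _ => rfl⟩
  have hindt' : AlgebraicIndependent M₁ tt := by
    rw [show tt = fun j => EE (j, 0) / EE (j, 1) from funext htt]
    exact hindt
  have hE1 : ∀ j, EE (j, 1) ≠ 0 := fun j => hindΩ.ne_zero (j, 1)
  have hkM₁ : ∀ c : ZMod p, algebraMap (ZMod p) Ω c ∈ M₁ := by
    intro c
    rw [IsScalarTower.algebraMap_apply (ZMod p) M Ω]
    exact M₁.algebraMap_mem _
  let _ : Algebra (ZMod p) M₁ := ((algebraMap (ZMod p) Ω).codRestrict M₁ hkM₁).toAlgebra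
  have htowM₁ : @IsScalarTower (ZMod p) M₁ Ω Algebra.toSMul Algebra.toSMul Algebra.toSMul :=
    IsScalarTower.of_algebraMap_eq fun a => rfl
  have htrt : ∀ j, Transcendental (ZMod p) (tt j) := fun j =>
    (hindt'.transcendental j).restrictScalars (algebraMap (ZMod p) M₁).injective
  choose ψ hψ using fun j => exists_emb (L := L₀) (ev (tt j) (htrt j))
  -- the projection
  let π : (Ω ≃ₐ[F] Ω) →* (M ≃ₐ[K] M) :=
    ι.symm.toMonoidHom.comp (AlgEquiv.restrictNormalHom (F := F) (K₁ := Ω) N)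
  have hπN : ∀ (γ : Ω ≃ₐ[F] Ω) (x : N), γ (algebraMap N Ω x) = algebraMap N Ω (ι (π γ) x) := by
    intro γ x
    have h1 : ι (π γ) = AlgEquiv.restrictNormalHom (F := F) (K₁ := Ω) N γ :=
      ι.apply_symm_apply _
    rw [h1]
    exact (AlgEquiv.restrictNormal_commutes γ N x).symm
  have hπM : ∀ (γ : Ω ≃ₐ[F] Ω) (m : M), γ (algebraMap M Ω m) = algebraMap M Ω (π γ m) := by
    intro γ m
    rw [IsScalarTower.algebraMap_apply M N Ω, hπN, hι, ← IsScalarTower.algebraMap_apply]
  have hπK : ∀ (γ : Ω ≃ₐ[F] Ω) (a : K), γ (algebraMap K Ω a) = algebraMap K Ω a := by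
    intro γ a
    rw [IsScalarTower.algebraMap_apply K M Ω, hπM, AlgEquiv.commutes]
  have hπk : ∀ (γ : Ω ≃ₐ[F] Ω) (a : ZMod p), γ (algebraMap (ZMod p) Ω a) =
      algebraMap (ZMod p) Ω a := by
    intro γ a
    rw [IsScalarTower.algebraMap_apply (ZMod p) K Ω, hπK]
  have hcoef : ∀ c : ZMod p, algebraMap N Ω (algebraMap M N (algebraMap K M
      (algebraMap (ZMod p) K c))) = algebraMap (ZMod p) Ω c := by
    intro c
    rw [← IsScalarTower.algebraMap_apply M N Ω, ← IsScalarTower.algebraMap_apply K M Ω,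
      ← IsScalarTower.algebraMap_apply (ZMod p) K Ω]
  have hπE : ∀ (γ : Ω ≃ₐ[F] Ω) (j : Fin n) (c : Fin 2),
      algebraMap (ZMod p) Ω (A (π γ) j c 0) * γ (EE (j, 0)) +
        algebraMap (ZMod p) Ω (A (π γ) j c 1) * γ (EE (j, 1)) = EE (act (π γ) j, c) := by
    intro γ j c
    have h1 := congrArg (algebraMap N Ω) (hιW (π γ) j c)
    rw [map_sum, Fin.sum_univ_two, map_mul, map_mul, hcoef, hcoef, ← hπN, ← hπN, ← hEE, ← hEE,
      ← hEE] at h1
    exact h1
  have hπt : ∀ (γ : Ω ≃ₐ[F] Ω) (j : Fin n), tt (act (π γ) j) *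
      (algebraMap (ZMod p) Ω (A (π γ) j 1 0) * γ (tt j) +
        algebraMap (ZMod p) Ω (A (π γ) j 1 1)) =
      algebraMap (ZMod p) Ω (A (π γ) j 0 0) * γ (tt j) +
        algebraMap (ZMod p) Ω (A (π γ) j 0 1) := by
    intro γ j
    have h0 := hπE γ j 0
    have h1 := hπE γ j 1
    have h2 : γ (EE (j, 1)) ≠ 0 := (map_ne_zero γ).2 (hE1 j)
    have h3 : EE (act (π γ) j, 1) ≠ 0 := hE1 _
    have h4 : γ (tt j) = γ (EE (j, 0)) / γ (EE (j, 1)) := by rw [htt, map_div₀]
    rw [htt (act (π γ) j), h4, ← h0, ← h1] at *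
    rw [div_mul_eq_mul_div, div_eq_iff h3]
    field_simp
  have hπsurj : Function.Surjective π :=
    ι.symm.surjective.comp (AlgEquiv.restrictNormalHom_surjective (F := F) (K₁ := N) Ω)
  have hπ1 : ∀ γ : Ω ≃ₐ[F] Ω, π γ = 1 ↔ ∀ x : N, γ (algebraMap N Ω x) = algebraMap N Ω x := by
    intro γ
    constructor
    · intro h x
      rw [hπN, h, map_one]
      rfl
    · intro h
      apply ι.injective
      rw [map_one]
      ext x
      apply (algebraMap N Ω).injective
      rw [← hπN, h]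
      rfl
  -- compatibility of `ψ` with automorphisms
  have hψC : ∀ j (c : ZMod p), ψ j (algebraMap (RatFunc (ZMod p)) L₀ (RatFunc.C c)) = algebraMap (ZMod p) Ω c := by
    intro j c
    rw [hψ, ← RatFunc.algebraMap_eq_C, ev_C]
  have hψX : ∀ j, ψ j (algebraMap (RatFunc (ZMod p)) L₀ RatFunc.X) = tt j := fun j => by rw [hψ, ev_X]
  have haC : ∀ (α : MulAut S) (c : ZMod p),
      a α (algebraMap (RatFunc (ZMod p)) L₀ (RatFunc.C c)) = algebraMap (RatFunc (ZMod p)) L₀ (RatFunc.C c) := by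
    intro α c
    exact DFunLike.congr_fun (RingHom.ext_zmod (((a α : L₀ ≃+* L₀) : L₀ →+* L₀).comp
      ((algebraMap (RatFunc (ZMod p)) L₀).comp RatFunc.C))
      ((algebraMap (RatFunc (ZMod p)) L₀).comp RatFunc.C)) c
  have hagree : ∀ (γ : Ω ≃ₐ[F] Ω) (j : Fin n) (e : E), cls e = π γ → ∀ r : RatFunc (ZMod p),
      γ (ψ j (algebraMap _ L₀ r)) = ψ (act (π γ) j) (a (T e j) (algebraMap _ L₀ r)) := by
    intro γ j e he r
    have h1 : ((γ : Ω →+* Ω).comp ((ψ j).comp (algebraMap (RatFunc (ZMod p)) L₀))) =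
        (ψ (act (π γ) j)).comp (((a (T e j) : L₀ ≃+* L₀) : L₀ →+* L₀).comp
          (algebraMap (RatFunc (ZMod p)) L₀)) := by
      apply ringHom_ext_ratFunc
      · intro c
        change γ (ψ j (algebraMap _ L₀ (algebraMap _ _ c))) =
          ψ (act (π γ) j) (a (T e j) (algebraMap _ L₀ (algebraMap _ _ c)))
        rw [RatFunc.algebraMap_eq_C, haC, hψC, hψC, hπk]
      · change γ (ψ j (algebraMap (RatFunc (ZMod p)) L₀ RatFunc.X)) =
          ψ (act (π γ) j) (a (T e j) (algebraMap (RatFunc (ZMod p)) L₀ RatFunc.X))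
        obtain ⟨hdet, hmob⟩ := hA e j
        have h2 := hπt γ j
        rw [← he] at h2
        have h3 := congrArg (ψ (act (cls e) j)) (congrArg (a (T e j)) hmob)
        have h4 : a (T e j) (a (T e j)⁻¹ (algebraMap (RatFunc (ZMod p)) L₀ RatFunc.X)) =
            algebraMap (RatFunc (ZMod p)) L₀ RatFunc.X := by
          rw [← RingAut.mul_apply, ← map_mul, mul_inv_cancel, map_one]
          rfl
        simp only [map_mul, map_add, h4, haC, hψC, hψX] at h3
        rw [hψX, ← he]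
        set t' := tt (act (cls e) j) with ht'
        set u := γ (tt j) with hu
        set v := ψ (act (cls e) j) (a (T e j) (algebraMap (RatFunc (ZMod p)) L₀ RatFunc.X)) with hv
        have h5 : (algebraMap (ZMod p) Ω (A (cls e) j 0 0) -
            t' * algebraMap (ZMod p) Ω (A (cls e) j 1 0)) * (u - v) = 0 := by
          linear_combination h3 - h2
        rcases mul_eq_zero.1 h5 with h6 | h6
        · exfalso
          apply htrt (act (cls e) j)
          refine ⟨C (A (cls e) j 0 0) - X * C (A (cls e) j 1 0), ?_, ?_⟩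
          · intro h7
            have e0 := congrArg (fun q => q.coeff 0) h7
            have e1 := congrArg (fun q => q.coeff 1) h7
            simp at e0 e1
            apply hdet
            rw [Matrix.det_fin_two, e0, e1]
            ring
          · simp only [map_sub, map_mul, aeval_C, aeval_X]
            exact h6
        · exact sub_eq_zero.1 h6
    exact DFunLike.congr_fun h1 r
  have hfdN : FiniteDimensional F (IsScalarTower.toAlgHom F N Ω).fieldRange :=
    (AlgEquiv.ofInjectiveField (IsScalarTower.toAlgHom F N Ω)).toLinearEquiv.finiteDimensional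
  let G₀ := MulAut S
  have hfinG : Finite G₀ := Finite.of_injective (fun α : MulAut S => (α : S → S))
    (fun α β h => MulEquiv.ext fun x => congrFun h x)
  let rE : G₀ ≃* (regP G₀).range := MonoidHom.ofInjective (regP_injective G₀)
  have hrE : ∀ s t : G₀, ((rE s : (regP G₀).range) : Perm G₀) t = s * t := fun s t => rfl
  suffices hsuff : ∃ (Φ : (Ω ≃ₐ[F] Ω) →* E) (L : IntermediateField F Ω), Function.Surjective Φ ∧
      FiniteDimensional F L ∧ Φ.ker = L.fixingSubgroup ∧ ∀ γ, cls (Φ γ) = π γ by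
    obtain ⟨Φ, L, h1, h2, h3, h4⟩ := hsuff
    refine MP7fE.sol_of_hom (algebraMap M Ω) (fun a => ?_) cls Φ h1 L h3 (fun γ m => ?_)
    · rw [IsScalarTower.algebraMap_apply M N Ω, hKFN, ← IsScalarTower.algebraMap_apply F N Ω]
    · rw [hπM, h4]
  -- the quotient modulo inner automorphisms
  let Inn : Subgroup (MulAut S) := (MulAut.conj (G := S)).range
  have hInnN : Inn.Normal := conj_range_normal
  let q : (regP G₀).range →* (MulAut S ⧸ Inn) :=
    (QuotientGroup.mk' Inn).comp rE.symm.toMonoidHom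
  have hqe : ∀ α : MulAut S, q (rE α) = QuotientGroup.mk' Inn α := by
    intro α
    change QuotientGroup.mk' Inn (rE.symm (rE α)) = _
    rw [MulEquiv.symm_apply_apply]
  choose sec hsec using hcls
  have hTc : ∀ e e' : E, cls e = cls e' → ∀ j, ∃ s, (T e j)⁻¹ * T e' j = MulAut.conj s := by
    intro e e' hee j
    have h1 : cls (e⁻¹ * e') = 1 := by rw [map_mul, map_inv, hee, inv_mul_cancel]
    obtain ⟨s, hs⟩ := hTN _ h1 j
    refine ⟨s, ?_⟩
    have h2 := hT1 e (e⁻¹ * e') j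
    rw [h1, map_one, Perm.one_apply, mul_inv_cancel_left] at h2
    rw [h2, inv_mul_cancel_left, hs]
  refine MP7fX.assembly (regP G₀).range q π hπsurj
    (IsScalarTower.toAlgHom F N Ω).fieldRange ?_ act
    (fun g j => QuotientGroup.mk' Inn (T (sec g) j))
    (fun j (α : MulAut S) => ψ j (a α x₀)) ?_ ?_ ?_ cls (fun e j => rE (T e j)) ?_ ?_ ?_
  · ext γ
    rw [MonoidHom.mem_ker, hπ1, IntermediateField.mem_fixingSubgroup_iff]
    constructor
    · rintro h _ ⟨x, rfl⟩
      exact h x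
    · intro h x
      exact h _ ⟨x, rfl⟩
  · intro j s t hst
    exact hx₀ ((ψ j).injective hst)
  · -- permutations
    intro γ j
    have he : cls (sec (π γ)) = π γ := hsec _
    obtain ⟨s, hs⟩ := emb_unique ((ψ (act (π γ) j)).comp
      ((a (T (sec (π γ)) j) : L₀ ≃+* L₀) : L₀ →+* L₀)) ((γ : Ω →+* Ω).comp (ψ j)) (fun x => by
      rw [RingHom.comp_apply, RingHom.comp_apply]
      exact (hagree γ j _ he x).symm)
    obtain ⟨s', hs'⟩ := hgal s
    refine ⟨rE (T (sec (π γ)) j * MulAut.conj s'), fun α => ?_, ?_⟩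
    · rw [hrE, map_mul, map_mul]
      have h1 := hs (a α x₀)
      rw [hs'] at h1
      exact h1
    · rw [hqe, map_mul]
      have h1 : QuotientGroup.mk' Inn (MulAut.conj s') = 1 :=
        (QuotientGroup.eq_one_iff _).2 ⟨s', rfl⟩
      rw [h1, mul_one]
  · -- moves
    rintro j₀ ⟨_, β, rfl⟩ hβ
    have hβ' : ∃ s : S, β = MulAut.conj s := by
      have h1 : q (rE β) = 1 := hβ
      rw [hqe] at h1
      obtain ⟨s, hs⟩ := (QuotientGroup.eq_one_iff β).1 h1
      exact ⟨s, hs.symm⟩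
    obtain ⟨s, rfl⟩ := hβ'
    let sL : L₀ ≃ₐ[RatFunc (ZMod p)] L₀ :=
      AlgEquiv.ofRingEquiv (f := a (MulAut.conj s)) (hfix s)
    let S₁ : Set Ω := Set.range tt ∪ ⋃ j, Set.range (ψ j)
    let L₁ : IntermediateField M₁ Ω := IntermediateField.adjoin M₁ S₁
    have heL : ∀ j, tt j ∈ L₁ := fun j =>
      IntermediateField.subset_adjoin _ _ (Or.inl ⟨j, rfl⟩)
    have hψL : ∀ j x, ψ j x ∈ L₁ := fun j x =>
      IntermediateField.subset_adjoin _ _ (Or.inr (Set.mem_iUnion.mpr ⟨j, x, rfl⟩))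
    have hML : ∀ m : M, algebraMap M Ω m ∈ L₁ := by
      intro m
      have h1 := L₁.algebraMap_mem (algebraMap M M₁ m)
      exact h1
    have hkL : ∀ a : ZMod p, algebraMap (ZMod p) Ω a ∈ L₁ := by
      intro a
      rw [IsScalarTower.algebraMap_apply (ZMod p) M Ω]
      exact hML _
    let _ : Algebra (ZMod p) L₁ := ((algebraMap (ZMod p) Ω).codRestrict L₁ hkL).toAlgebra
    have htowL : @IsScalarTower (ZMod p) M₁ L₁ Algebra.toSMul Algebra.toSMul Algebra.toSMul :=
      IsScalarTower.of_algebraMap_eq fun a => by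
        apply Subtype.ext
        rfl
    have htowLΩ : @IsScalarTower (ZMod p) L₁ Ω Algebra.toSMul Algebra.toSMul Algebra.toSMul :=
      IsScalarTower.of_algebraMap_eq fun a => rfl
    have htrL : ∀ j, Transcendental (ZMod p) (⟨tt j, heL j⟩ : L₁) := by
      intro j h0
      apply htrt j
      have h1 := h0.algHom (IsScalarTower.toAlgHom (ZMod p) L₁ Ω)
      exact h1
    obtain ⟨τ, hτ1, hτ2, hτ3⟩ := exists_move (M := M₁) (L := L₁) pb hirr
      (fun j => (⟨tt j, heL j⟩ : L₁))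
      (AlgebraicIndependent.of_comp (f := L₁.val) hindt') htrL
      (fun j => (ψ j).codRestrict L₁ (hψL j))
      (fun j x => by
        apply Subtype.ext
        change ψ j (algebraMap _ L₀ x) = algebraMap L₁ Ω (ev _ (htrL j) x)
        rw [hψ]
        have h1 : ev (tt j) (htrt j) = (algebraMap L₁ Ω).comp (ev _ (htrL j)) := by
          apply ringHom_ext_ratFunc
          · intro a
            rw [RingHom.comp_apply, ev_C, ev_C]
            rfl
          · rw [RingHom.comp_apply, ev_X, ev_X]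
            rfl
        rw [h1]
        rfl)
      (by
        apply IntermediateField.map_injective L₁.val
        rw [IntermediateField.adjoin_map, ← AlgHom.fieldRange_eq_map,
          IntermediateField.fieldRange_val, Set.image_union, ← Set.range_comp, Set.image_iUnion]
        change IntermediateField.adjoin M₁ (Set.range tt ∪ _) = IntermediateField.adjoin M₁ S₁
        congr 2
        apply Set.iUnion_congr
        intro j
        rw [← Set.range_comp]
        rfl) j₀ sL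
    let L₂ : IntermediateField M Ω := L₁.restrictScalars M
    let τ₂ : L₂ ≃ₐ[M] L₂ := AlgEquiv.ofRingEquiv (f := (τ : L₁ ≃+* L₁)) (fun m => by
      have h1 := τ.commutes (algebraMap M M₁ m)
      exact h1)
    have hE1L : ∀ j, EE (j, 1) ∈ M₁ := fun j =>
      IntermediateField.subset_adjoin _ _ ⟨j, rfl⟩
    have hE1L' : ∀ j, EE (j, 1) ∈ L₁ := fun j => L₁.algebraMap_mem (⟨EE (j, 1), hE1L j⟩ : M₁)
    have hE0 : ∀ j, EE (j, 0) = tt j * EE (j, 1) := fun j => by
      rw [htt, div_mul_cancel₀ _ (hE1 j)]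
    have hE0L' : ∀ j, EE (j, 0) ∈ L₁ := fun j => by
      rw [hE0]
      exact mul_mem (heL j) (hE1L' j)
    have hEL : ∀ jc : Fin n × Fin 2, algebraMap N Ω (W jc) ∈ L₂ := by
      rintro ⟨j, c⟩
      rw [← hEE]
      fin_cases c
      · exact hE0L' j
      · exact hE1L' j
    have hτE1 : ∀ j, τ ⟨EE (j, 1), hE1L' j⟩ = ⟨EE (j, 1), hE1L' j⟩ := fun j =>
      τ.commutes (⟨EE (j, 1), hE1L j⟩ : M₁)
    have hτE : ∀ jc : Fin n × Fin 2, τ₂ ⟨algebraMap N Ω (W jc), hEL jc⟩ =
        ⟨algebraMap N Ω (W jc), hEL jc⟩ := by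
      rintro ⟨j, c⟩
      fin_cases c
      · have h1 : (⟨algebraMap N Ω (W (j, 0)), hEL (j, 0)⟩ : L₁) =
            ⟨tt j, heL j⟩ * ⟨EE (j, 1), hE1L' j⟩ := by
          apply Subtype.ext
          change algebraMap N Ω (W (j, 0)) = tt j * EE (j, 1)
          rw [← hEE, hE0]
        change τ (⟨algebraMap N Ω (W (j, 0)), hEL (j, 0)⟩ : L₁) = _
        rw [h1, map_mul, hτE1, hτ1 j]
        exact h1.symm
      · have h1 : (⟨algebraMap N Ω (W (j, 1)), hEL (j, 1)⟩ : L₁) = ⟨EE (j, 1), hE1L' j⟩ := by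
          apply Subtype.ext
          exact (hEE _).symm
        change τ (⟨algebraMap N Ω (W (j, 1)), hEL (j, 1)⟩ : L₁) = _
        rw [h1, hτE1]
        exact h1.symm
    obtain ⟨τ', h1, h2⟩ := MP7fX.exists_lift_move (F := F) W hgenN L₂ hEL τ₂ hτE
    refine ⟨τ', (hπ1 τ').mpr h1, ?_, ?_⟩
    · intro j hj α
      have h3 := h2 ⟨ψ j (a α x₀), hψL j _⟩
      have h4 := hτ2 j hj (a α x₀)
      change τ' (ψ j (a α x₀)) = _ at h3
      change τ' (ψ j (a α x₀)) = ψ j (a α x₀)
      rw [h3]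
      exact congrArg Subtype.val h4
    · intro α
      change τ' (ψ j₀ (a α x₀)) = ψ j₀ (a (MulAut.conj s * α) x₀)
      have h3 := h2 ⟨ψ j₀ (a α x₀), hψL j₀ _⟩
      have h4 := hτ3 (a α x₀)
      change τ' (ψ j₀ (a α x₀)) = _ at h3
      rw [h3, map_mul]
      exact congrArg Subtype.val h4
  · intro a b j
    rw [hT1, map_mul]
  · intro e j
    rw [hqe]
    obtain ⟨s, hs⟩ := hTc (sec (cls e)) e (hsec _) j
    have h1 : T e j = T (sec (cls e)) j * MulAut.conj s := by rw [← hs, mul_inv_cancel_left]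
    rw [h1, map_mul]
    have h2 : QuotientGroup.mk' Inn (MulAut.conj s) = 1 :=
      (QuotientGroup.eq_one_iff _).2 ⟨s, rfl⟩
    rw [h2, mul_one]
  · intro g τ hτ
    obtain ⟨e, ⟨he1, he2⟩, he3⟩ := hT3 (sec g) (fun j => rE.symm (τ j)) (by
      intro j
      have h1 := hτ j
      have h2 : QuotientGroup.mk' Inn (rE.symm (τ j)) = QuotientGroup.mk' Inn (T (sec g) j) := h1
      obtain ⟨s, hs⟩ := (QuotientGroup.eq (s := Inn)).1 h2.symm
      exact ⟨s, hs.symm⟩)
    refine ⟨e, ⟨by rw [he1, hsec], ?_⟩, fun b hb => he3 b ⟨by rw [hb.1, hsec], ?_⟩⟩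
    · funext j
      rw [he2]
      exact rE.apply_symm_apply _
    · funext j
      have h5 := congrFun hb.2 j
      change rE (T b j) = τ j at h5
      rw [← h5]
      exact (rE.symm_apply_apply _).symm

/-- **Core.**  Adapted from `core` in `MP_7f581e_ntK/Kernel.lean`. -/
theorem core (hInd : IndStmt) [Algebra K F]
    (pb : PowerBasis (RatFunc (ZMod p)) L₀)
    (hirr : ∀ (K₁ : Type) [Field K₁] [Algebra (ZMod p) K₁],
      Irreducible ((minpoly (RatFunc (ZMod p)) pb.gen).map (tau (ZMod p) K₁)))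
    (a : MulAut S →* (L₀ ≃+* L₀))
    (hfix : ∀ (s : S) (x : RatFunc (ZMod p)),
      a (MulAut.conj s) (algebraMap _ L₀ x) = algebraMap _ L₀ x)
    (hgal : ∀ τ : L₀ ≃ₐ[RatFunc (ZMod p)] L₀, ∃ s : S, ∀ y, τ y = a (MulAut.conj s) y)
    (x₀ : L₀) (hx₀ : Function.Injective fun α : MulAut S => a α x₀)
    (ι : (M ≃ₐ[K] M) ≃* (N ≃ₐ[F] N))
    (act : (M ≃ₐ[K] M) →* Perm (Fin n))
    (A : (M ≃ₐ[K] M) → Fin n → Matrix (Fin 2) (Fin 2) (ZMod p)) (W : Fin n × Fin 2 → N)
    (hKFN : ∀ a : K, algebraMap M N (algebraMap K M a) = algebraMap F N (algebraMap K F a))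
    (hι : ∀ g m, ι g (algebraMap M N m) = algebraMap M N (g m))
    (hιW : ∀ g j c, ∑ c' : Fin 2, algebraMap M N (algebraMap K M
      (algebraMap (ZMod p) K (A g j c c'))) * ι g (W (j, c')) = W (act g j, c))
    (hind : AlgebraicIndependent M W)
    (hgenN : IntermediateField.adjoin M (Set.range W) = ⊤)
    {E : Type} [Group E] (cls : E →* (M ≃ₐ[K] M)) (hcls : Function.Surjective cls)
    (T : E → Fin n → MulAut S)
    (hT1 : ∀ e e' j, T (e * e') j = T e (act (cls e') j) * T e' j)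
    (hTN : ∀ m, cls m = 1 → ∀ j, ∃ s, T m j = MulAut.conj s)
    (hT3 : ∀ (e : E) (τ : Fin n → MulAut S), (∀ j, ∃ s, (T e j)⁻¹ * τ j = MulAut.conj s) →
      ∃! e' : E, cls e' = cls e ∧ T e' = τ)
    (hA : ∀ e j, (A (cls e) j).det ≠ 0 ∧
      a (T e j)⁻¹ (algebraMap (RatFunc (ZMod p)) L₀ RatFunc.X) *
        algebraMap (RatFunc (ZMod p)) L₀ (RatFunc.C (A (cls e) j 1 0) * RatFunc.X +
          RatFunc.C (A (cls e) j 1 1)) =
        algebraMap (RatFunc (ZMod p)) L₀ (RatFunc.C (A (cls e) j 0 0) * RatFunc.X +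
          RatFunc.C (A (cls e) j 0 1))) :
    ∃ (L : Type) (_ : Field L) (_ : Algebra F L) (_ : FiniteDimensional F L)
      (_ : IsGalois F L) (e' : (L ≃ₐ[F] L) ≃* E) (j : M →+* L),
      (∀ a : K, j (algebraMap K M a) = algebraMap F L (algebraMap K F a)) ∧
      ∀ (σ : L ≃ₐ[F] L) (x : M), σ (j x) = j (cls (e' σ) x) := by
  let Ω := SeparableClosure N
  let _ : Algebra F Ω := ((algebraMap N Ω).comp (algebraMap F N)).toAlgebra
  have h1 : IsScalarTower F N Ω := IsScalarTower.of_algebraMap_eq fun _ => rfl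
  let _ : Algebra M Ω := ((algebraMap N Ω).comp (algebraMap M N)).toAlgebra
  have h2 : IsScalarTower M N Ω := IsScalarTower.of_algebraMap_eq fun _ => rfl
  let _ : Algebra K Ω := ((algebraMap M Ω).comp (algebraMap K M)).toAlgebra
  have h3 : IsScalarTower K M Ω := IsScalarTower.of_algebraMap_eq fun _ => rfl
  let _ : Algebra (ZMod p) Ω := ((algebraMap K Ω).comp (algebraMap (ZMod p) K)).toAlgebra
  have h4 : IsScalarTower (ZMod p) K Ω := IsScalarTower.of_algebraMap_eq fun _ => rfl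
  have h5 : Algebra.IsSeparable F Ω := Algebra.IsSeparable.trans F N Ω
  have h6 : IsSepClosure F Ω := ⟨inferInstance, h5⟩
  have h7 : IsGalois F Ω := inferInstance
  exact core_aux hInd Ω pb hirr a hfix hgal x₀ hx₀ ι act A W hKFN hι hιW hind hgenN cls hcls T
    hT1 hTN hT3 hA

end core

end MP7K.G5
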