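import Pool.Agent.Lib.MP_7f581e_ntX.Aut
import Pool.Agent.Lib.MP_7f581e_ntR.Defs

/-!
# C33 (MP_7f581e_nt), Part V: group theory

The extension of a group by block monomial matrices.
-/

set_option autoImplicit false
set_option linter.unusedSectionVars false

namespace MP7K.G5

open Equiv

section blk

variable {n : ℕ} {R : Type} [CommRing R]

/-- The block monomial matrix. -/
def blk (σ : Perm (Fin n)) (B : Fin n → Matrix (Fin 2) (Fin 2) R) :
    Matrix (Fin n × Fin 2) (Fin n × Fin 2) R :=
  fun x y => if x.1 = σ y.1 then B y.1 x.2 y.2 else 0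

theorem blk_mul (σ τ : Perm (Fin n)) (B C : Fin n → Matrix (Fin 2) (Fin 2) R) :
    blk σ B * blk τ C = blk (σ * τ) (fun j => B (τ j) * C j) := by
  ext ⟨i, c⟩ ⟨j, d⟩
  rw [Matrix.mul_apply, Fintype.sum_prod_type, Finset.sum_eq_single (τ j)]
  · change ∑ m, (if i = σ (τ j) then B (τ j) c m else 0) * (if τ j = τ j then C j m d else 0) =
      if i = σ (τ j) then (B (τ j) * C j) c d else 0
    rw [Matrix.mul_apply]
    by_cases h : i = σ (τ j)
    · rw [if_pos h]
      refine Finset.sum_congr rfl fun m _ => ?_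
      rw [if_pos h, if_pos rfl]
    · rw [if_neg h]
      refine Finset.sum_eq_zero fun m _ => ?_
      rw [if_neg h, zero_mul]
  · intro k _ hk
    refine Finset.sum_eq_zero fun m _ => ?_
    change _ * (if k = τ j then _ else _) = 0
    rw [if_neg hk, mul_zero]
  · intro h
    exact absurd (Finset.mem_univ _) h

theorem blk_one : blk (1 : Perm (Fin n)) (fun _ => (1 : Matrix (Fin 2) (Fin 2) R)) = 1 := by
  ext ⟨i, c⟩ ⟨j, d⟩
  simp only [blk, Perm.one_apply, Matrix.one_apply, Prod.mk.injEq]
  by_cases h1 : i = j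
  · by_cases h2 : c = d
    · simp [h1, h2]
    · simp [h1, h2]
  · simp [h1]

theorem blk_apply (σ : Perm (Fin n)) (B : Fin n → Matrix (Fin 2) (Fin 2) R) (j : Fin n)
    (c d : Fin 2) : blk σ B (σ j, c) (j, d) = B j c d := by
  simp [blk]

theorem blk_apply_ne (σ : Perm (Fin n)) (B : Fin n → Matrix (Fin 2) (Fin 2) R) {i j : Fin n}
    (h : i ≠ σ j) (c d : Fin 2) : blk σ B (i, c) (j, d) = 0 := by
  simp [blk, h]

end blk

section grp

variable {n : ℕ} {R : Type} [Field R] [Finite R] {Q : Type} [Group Q] [Finite Q]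
  (act : Q →* Perm (Fin n)) {E : Type} [Group E] (mk : E →* Q)
  {A : Type} [Group A] (T : E → Fin n → A)
  (P : A → Matrix (Fin 2) (Fin 2) R → Prop)

/-- The group of the pairs of an element of `Q` and a compatible block monomial matrix. -/
def extG (hT1 : ∀ e e' j, T (e * e') j = T e (act (mk e') j) * T e' j)
    (hP1 : P 1 1) (hPm : ∀ α β B C, P α B → P β C → P (α * β) (B * C)) :
    Subgroup (Q × (Matrix (Fin n × Fin 2) (Fin n × Fin 2) R)ˣ) where
  carrier := {x | ∃ (e : E) (B : Fin n → Matrix (Fin 2) (Fin 2) R), mk e = x.1 ∧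
    (x.2 : Matrix (Fin n × Fin 2) (Fin n × Fin 2) R) = blk (act x.1) B ∧ ∀ j, P (T e j) (B j)}
  one_mem' := by
    refine ⟨1, fun _ => 1, map_one _, ?_, ?_⟩
    · change 1 = blk (act 1) _
      rw [map_one, blk_one]
    · intro j
      have h := hT1 1 1 j
      rw [mul_one, map_one, map_one, Perm.one_apply] at h
      rw [show T 1 j = 1 from mul_eq_left.1 h.symm]
      exact hP1
  mul_mem' := by
    rintro ⟨g, X⟩ ⟨h, Y⟩ ⟨e, B, he, hB, hPB⟩ ⟨f, C, hf, hC, hPC⟩
    refine ⟨e * f, fun j => B (act h j) * C j, ?_, ?_, ?_⟩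
    · change mk (e * f) = g * h
      rw [map_mul, he, hf]
    · change X.val * Y.val = blk (act (g * h)) _
      change X.val = blk (act g) B at hB
      change Y.val = blk (act h) C at hC
      rw [hB, hC, blk_mul, map_mul]
    · intro j
      rw [hT1]
      refine hPm _ _ _ _ ?_ (hPC j)
      change mk f = h at hf
      rw [hf]
      exact hPB _
  inv_mem' := by
    intro x hx
    have h1 : x⁻¹ = x ^ (orderOf x - 1) := by
      have h2 : 0 < orderOf x := orderOf_pos x
      rw [eq_comm, ← mul_eq_one_iff_eq_inv, ← pow_succ]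
      rw [Nat.sub_add_cancel h2, pow_orderOf_eq_one]
    rw [h1]
    have hpow : ∀ m : ℕ, x ^ m ∈ {x : Q × (Matrix (Fin n × Fin 2) (Fin n × Fin 2) R)ˣ |
        ∃ (e : E) (B : Fin n → Matrix (Fin 2) (Fin 2) R), mk e = x.1 ∧
          (x.2 : Matrix (Fin n × Fin 2) (Fin n × Fin 2) R) = blk (act x.1) B ∧
          ∀ j, P (T e j) (B j)} := by
      intro m
      induction m with
      | zero =>
        rw [pow_zero]
        refine ⟨1, fun _ => 1, map_one _, ?_, ?_⟩
        · change 1 = blk (act 1) _
          rw [map_one, blk_one]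
        · intro j
          have h := hT1 1 1 j
          rw [mul_one, map_one, map_one, Perm.one_apply] at h
          rw [show T 1 j = 1 from mul_eq_left.1 h.symm]
          exact hP1
      | succ m ih =>
        rw [pow_succ]
        obtain ⟨e, B, he, hB, hPB⟩ := ih
        obtain ⟨f, C, hf, hC, hPC⟩ := hx
        refine ⟨e * f, fun j => B (act x.1 j) * C j, ?_, ?_, ?_⟩
        · rw [map_mul, he, hf]
          rfl
        · rw [Prod.snd_mul, Units.val_mul, hB, hC, blk_mul, Prod.fst_mul, map_mul]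
        · intro j
          rw [hT1, hf]
          exact hPm _ _ _ _ (hPB _) (hPC j)
    exact hpow _

end grp

end MP7K.G5
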