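import Pool.Agent.Lib.MP_7f581e_ntK.Kernel
import Pool.Agent.Lib.MP_7f581e_ntE.General
import Pool.Agent.Lib.MP_7f581e_K.G5.Core
import Pool.Agent.Lib.MP_7f581e_K.G5.Grp
import Pool.Agent.Lib.MP_7f581e_K.F.Close

/-!
# C33 (MP_7f581e_nt), Part V: simple groups with a GA realisation
-/

set_option autoImplicit false
set_option linter.unusedSectionVars false

namespace MP7K.G5

open Polynomial Equiv MP7fR MP7fA MP7fK

/-- Closure under extensions with solvable kernel. -/
def SolvS (p : ℕ) [Fact p.Prime] : Prop :=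
  ∀ (G : Type) [Group G] [Finite G] (E : Type) [Group E] [Finite E] (f : E →* G),
    Function.Surjective f → Group.IsSolvable f.ker → OccursRegularly G (ZMod p) →
    OccursRegularly E (ZMod p)

/-- Closure under extensions with kernel a power of a simple group with a GA realisation. -/
def GAStep (p : ℕ) [Fact p.Prime] : Prop :=
  ∀ (E G : Type) [Group E] [Finite E] [Group G] [Finite G] (f : E →* G), Function.Surjective f →
  ∀ (S : Type) [Group S] [Finite S] (κ : Type) [Finite κ], HasGA p S →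
    Nonempty (f.ker ≃* (κ → S)) → OccursRegularly G (ZMod p) → OccursRegularly E (ZMod p)

/-- `B` describes the action of `α⁻¹` on the parameter. -/
def MB {p : ℕ} [Fact p.Prime] {L₀ : Type} [Field L₀] [Algebra (RatFunc (ZMod p)) L₀] {S : Type}
    [Group S] (a : MulAut S →* (L₀ ≃+* L₀)) (α : MulAut S) (B : Matrix (Fin 2) (Fin 2) (ZMod p)) :
    Prop :=
  B.det ≠ 0 ∧
    a α⁻¹ (algebraMap (RatFunc (ZMod p)) L₀ RatFunc.X) *
      algebraMap (RatFunc (ZMod p)) L₀ (RatFunc.C (B 1 0) * RatFunc.X + RatFunc.C (B 1 1)) =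
    algebraMap (RatFunc (ZMod p)) L₀ (RatFunc.C (B 0 0) * RatFunc.X + RatFunc.C (B 0 1))

section

variable {p : ℕ} [Fact p.Prime] {L₀ : Type} [Field L₀] [Algebra (RatFunc (ZMod p)) L₀]
  {S : Type} [Group S] (a : MulAut S →* (L₀ ≃+* L₀))

theorem a_C (α : MulAut S) (c : ZMod p) :
    a α (algebraMap (RatFunc (ZMod p)) L₀ (RatFunc.C c)) =
      algebraMap (RatFunc (ZMod p)) L₀ (RatFunc.C c) :=
  DFunLike.congr_fun (RingHom.ext_zmod (((a α : L₀ ≃+* L₀) : L₀ →+* L₀).comp
    ((algebraMap (RatFunc (ZMod p)) L₀).comp RatFunc.C))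
    ((algebraMap (RatFunc (ZMod p)) L₀).comp RatFunc.C)) c

theorem MB_one : MB (p := p) a 1 1 := by
  refine ⟨by simp, ?_⟩
  rw [inv_one, map_one]
  simp

theorem MB_mul {α β : MulAut S} {B C : Matrix (Fin 2) (Fin 2) (ZMod p)} (hB : MB a α B)
    (hC : MB a β C) : MB a (α * β) (B * C) := by
  obtain ⟨hBd, hB⟩ := hB
  obtain ⟨hCd, hC⟩ := hC
  refine ⟨by rw [Matrix.det_mul]; exact mul_ne_zero hBd hCd, ?_⟩
  have h1 := congrArg (a β⁻¹) hB
  have h2 : a β⁻¹ (a α⁻¹ (algebraMap (RatFunc (ZMod p)) L₀ RatFunc.X)) =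
      a (α * β)⁻¹ (algebraMap (RatFunc (ZMod p)) L₀ RatFunc.X) := by
    rw [mul_inv_rev, map_mul]
    rfl
  simp only [map_mul, map_add, h2, a_C] at h1 hC ⊢
  simp only [Matrix.mul_apply, Fin.sum_univ_two, map_add, map_mul]
  set t := algebraMap (RatFunc (ZMod p)) L₀ RatFunc.X with ht
  set u := a β⁻¹ t with hu
  set v := a (α * β)⁻¹ t with hv
  linear_combination (algebraMap (RatFunc (ZMod p)) L₀ (RatFunc.C (C 1 0)) * t +
      algebraMap (RatFunc (ZMod p)) L₀ (RatFunc.C (C 1 1))) * h1 +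
    (algebraMap (RatFunc (ZMod p)) L₀ (RatFunc.C (B 0 0)) -
      v * algebraMap (RatFunc (ZMod p)) L₀ (RatFunc.C (B 1 0))) * hC

/-- Existence of the matrix. -/
theorem exists_MB (hMob : MobStmt)
    (hfix : ∀ y : L₀, (∀ s : S, a (MulAut.conj s) y = y) ↔
      ∃ x, algebraMap (RatFunc (ZMod p)) L₀ x = y) (α : MulAut S) : ∃ B, MB (p := p) a α B := by
  have hconj : ∀ (β : MulAut S) (s : S), MulAut.conj s * β = β * MulAut.conj (β⁻¹ s) := by
    intro β s
    ext x
    simp [MulAut.mul_apply, MulAut.conj_apply]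
  have hst : ∀ (β : MulAut S) (x : RatFunc (ZMod p)),
      ∃ y, algebraMap (RatFunc (ZMod p)) L₀ y = a β (algebraMap (RatFunc (ZMod p)) L₀ x) := by
    intro β x
    rw [← hfix]
    intro s
    rw [← RingAut.mul_apply, ← map_mul, hconj, map_mul, RingAut.mul_apply,
      (hfix (algebraMap (RatFunc (ZMod p)) L₀ x)).2 ⟨x, rfl⟩]
  choose g hg using hst
  have hinj := (algebraMap (RatFunc (ZMod p)) L₀).injective
  let σ : RatFunc (ZMod p) ≃+* RatFunc (ZMod p) :=
    { toFun := g α⁻¹
      invFun := g α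
      left_inv := fun x => by
        apply hinj
        rw [hg, hg, ← RingAut.mul_apply, ← map_mul, mul_inv_cancel, map_one]
        rfl
      right_inv := fun x => by
        apply hinj
        rw [hg, hg, ← RingAut.mul_apply, ← map_mul, inv_mul_cancel, map_one]
        rfl
      map_mul' := fun x y => by
        apply hinj
        rw [hg, map_mul, map_mul, map_mul, hg, hg]
      map_add' := fun x y => by
        apply hinj
        rw [hg, map_add, map_add, map_add, hg, hg] }
  obtain ⟨A, hA, hA'⟩ := (hMob p).1 σ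
  refine ⟨A, hA, ?_⟩
  have h1 := congrArg (algebraMap (RatFunc (ZMod p)) L₀) hA'
  rw [map_mul] at h1
  have h2 : algebraMap (RatFunc (ZMod p)) L₀ (σ RatFunc.X) =
      a α⁻¹ (algebraMap (RatFunc (ZMod p)) L₀ RatFunc.X) := hg _ _
  rw [h2] at h1
  exact h1

/-- The matrices of inner automorphisms are scalar. -/
theorem MB_conj (hMob : MobStmt)
    (hfix : ∀ y : L₀, (∀ s : S, a (MulAut.conj s) y = y) ↔
      ∃ x, algebraMap (RatFunc (ZMod p)) L₀ x = y) {s : S} {B : Matrix (Fin 2) (Fin 2) (ZMod p)}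
    (hB : MB (p := p) a (MulAut.conj s) B) : B 1 0 = 0 ∧ B 0 1 = 0 ∧ B 0 0 = B 1 1 := by
  apply (hMob p).2
  apply (algebraMap (RatFunc (ZMod p)) L₀).injective
  rw [← hB.2, map_mul]
  congr 1
  rw [← map_inv]
  exact ((hfix _).2 ⟨_, rfl⟩ _).symm

theorem MB_mul_conj (hfix : ∀ y : L₀, (∀ s : S, a (MulAut.conj s) y = y) ↔
      ∃ x, algebraMap (RatFunc (ZMod p)) L₀ x = y) {α : MulAut S} {s : S}
    {B : Matrix (Fin 2) (Fin 2) (ZMod p)} (hB : MB (p := p) a α B) :
    MB (p := p) a (α * MulAut.conj s) B := by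
  have h1 : MB (p := p) a (MulAut.conj s) 1 := by
    refine ⟨by simp, ?_⟩
    rw [← map_inv, (hfix (algebraMap (RatFunc (ZMod p)) L₀ RatFunc.X)).2 ⟨_, rfl⟩ _]
    simp
  have h2 := MB_mul a hB h1
  rwa [mul_one] at h2

end

theorem conj_injective {S : Type} [Group S] (hc : Subgroup.center S = ⊥) :
    Function.Injective (MulAut.conj (G := S)) := by
  rw [injective_iff_map_eq_one]
  intro s hs
  have h1 : s ∈ Subgroup.center S := by
    rw [Subgroup.mem_center_iff]
    intro x
    have h2 : MulAut.conj s x = x := by rw [hs]; rfl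
    rw [MulAut.conj_apply, mul_inv_eq_iff_eq_mul] at h2
    exact h2.symm
  rwa [hc, Subgroup.mem_bot] at h1

theorem center_bot {S : Type} [Group S] [IsSimpleGroup S] (h : ∃ a b : S, a * b ≠ b * a) :
    Subgroup.center S = ⊥ := by
  rcases (inferInstance : (Subgroup.center S).Normal).eq_bot_or_eq_top with h1 | h1
  · exact h1
  · obtain ⟨a, b, hab⟩ := h
    exfalso
    apply hab
    have h2 : b ∈ Subgroup.center S := by rw [h1]; exact Subgroup.mem_top b
    exact Subgroup.mem_center_iff.1 h2 a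

theorem blk_isUnit {n : ℕ} {R : Type} [Field R] (σ : Perm (Fin n))
    (B : Fin n → Matrix (Fin 2) (Fin 2) R) (hB : ∀ j, (B j).det ≠ 0) : IsUnit (blk σ B) := by
  have h : blk σ B * blk σ⁻¹ (fun j => (B (σ⁻¹ j))⁻¹) = 1 := by
    rw [blk_mul, mul_inv_cancel, ← blk_one]
    congr 1
    funext j
    exact Matrix.mul_nonsing_inv _ (isUnit_iff_ne_zero.2 (hB _))
  exact (Matrix.isUnit_iff_isUnit_det _).2 (Matrix.isUnit_det_of_right_inverse h)

/-- The extension of `E` by the matrices, and the solution of the embedding problem. -/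
theorem solvesOver_ga (hTw : TwistStmt) (hMob : MobStmt) (hCst : CstStmt) (hOrb : OrbStmt)
    (hInd : IndStmt) {p : ℕ} [Fact p.Prime] {S : Type} [Group S] [Finite S] [IsSimpleGroup S]
    (hnc : ∃ a b : S, a * b ≠ b * a) {L₀ : Type} [Field L₀] [Algebra (RatFunc (ZMod p)) L₀]
    (a : MulAut S →* (L₀ ≃+* L₀)) (ha : Function.Injective a)
    (hfix : ∀ y : L₀, (∀ s : S, a (MulAut.conj s) y = y) ↔
      ∃ x, algebraMap (RatFunc (ZMod p)) L₀ x = y)
    {n : ℕ} {E : Type} [Group E] [Finite E] (N : Subgroup E) [N.Normal]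
    (φ : N ≃* (Fin n → S)) :
    ∃ (G' E' : Type) (_ : Group G') (_ : Finite G') (_ : Group E') (_ : Finite E')
      (h : G' →* E ⧸ N) (π : E' →* E) (f' : E' →* G'), Function.Surjective h ∧
      Function.Surjective π ∧ Group.IsSolvable h.ker ∧ (∀ x : E', (π x : E ⧸ N) = h (f' x)) ∧
      ∀ (K : Type) [Field K] [Algebra (ZMod p) K],
        MP7fE.SolvesOver K (FractionRing (MvPolynomial (Fin n × Fin 2) K)) f' := by
  classical
  have hc := center_bot hnc
  obtain ⟨hfd₀, hgal₀, hinn, hreg⟩ := hCst p S hnc L₀ a ha hfix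
  obtain ⟨pb, hirr⟩ := exists_gen.{0} hreg
  have hfinA : Finite (MulAut S) := Finite.of_injective (fun α : MulAut S => (α : S → S))
    (fun α β h => MulEquiv.ext fun x => congrFun h x)
  obtain ⟨x₀, hx₀⟩ := hOrb L₀ (MulAut S) a ha
  have hfix' : ∀ (s : S) (x : RatFunc (ZMod p)),
      a (MulAut.conj s) (algebraMap _ L₀ x) = algebraMap _ L₀ x := fun s x =>
    (hfix _).2 ⟨x, rfl⟩ s
  have hcinj := conj_injective hc
  have haut : ∀ α : S ≃* S, ∃! h : MulAut S, ∀ x, MulAut.conj (α x) =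
      h * MulAut.conj x * h⁻¹ := by
    intro α
    have h1 : ∀ (β : MulAut S) (x : S), β * MulAut.conj x * β⁻¹ = MulAut.conj (β x) := by
      intro β x
      ext y
      simp [MulAut.mul_apply, MulAut.conj_apply]
    refine ⟨α, fun x => (h1 α x).symm, fun β hβ => ?_⟩
    apply MulEquiv.ext
    intro x
    have h2 := hβ x
    rw [h1] at h2
    exact (hcinj h2).symm
  obtain ⟨act, T, hT1, hTm, hT3⟩ := MP7fX.exists_aut_data hc (MulAut.conj (G := S)) hcinj haut N φ
  let G' := extG act (QuotientGroup.mk' N) T (MB (p := p) a) hT1 (MB_one a) fun α β B C =>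
    MB_mul a
  let h : G' →* E ⧸ N := (MonoidHom.fst _ _).comp G'.subtype
  let mat : G' →* Matrix (Fin n × Fin 2) (Fin n × Fin 2) (ZMod p) :=
    (Units.coeHom _).comp ((MonoidHom.snd _ _).comp G'.subtype)
  have hmem : ∀ x : G', ∃ (e : E) (B : Fin n → Matrix (Fin 2) (Fin 2) (ZMod p)),
      (e : E ⧸ N) = h x ∧ mat x = blk (act (h x)) B ∧ ∀ j, MB (p := p) a (T e j) (B j) :=
    fun x => x.2
  have hsurj : Function.Surjective h := by
    intro x
    obtain ⟨e, rfl⟩ := QuotientGroup.mk'_surjective N x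
    choose B hB using fun j => exists_MB a hMob hfix (T e j)
    obtain ⟨X, hX⟩ := blk_isUnit (act (e : E ⧸ N)) B fun j => (hB j).1
    exact ⟨⟨((e : E ⧸ N), X), e, B, rfl, hX, hB⟩, rfl⟩
  -- the kernel
  have hTN : ∀ m : E, (m : E ⧸ N) = 1 → ∀ j, ∃ s, T m j = MulAut.conj s := by
    intro m hm j
    have h1 := (QuotientGroup.eq_one_iff m).1 hm
    exact ⟨_, hTm ⟨m, h1⟩ j⟩
  have hdiag : ∀ x : G', h x = 1 → ∃ d, mat x = Matrix.diagonal d := by
    intro x hx
    obtain ⟨e, B, he, hB, hMB⟩ := hmem x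
    rw [hx] at he hB
    refine ⟨fun y => B y.1 0 0, ?_⟩
    rw [hB, map_one]
    ext ⟨i, c⟩ ⟨j, d⟩
    obtain ⟨s, hs⟩ := hTN e he j
    have h1 := hMB j
    rw [hs] at h1
    obtain ⟨h2, h3, h4⟩ := MB_conj a hMob hfix h1
    by_cases hij : i = j
    · subst hij
      rw [show blk (1 : Perm (Fin n)) B (i, c) (i, d) = B i c d from blk_apply 1 B i c d]
      rw [Matrix.diagonal_apply]
      fin_cases c <;> fin_cases d <;> simp [h2, h3, h4]
    · rw [blk_apply_ne 1 B hij, Matrix.diagonal_apply_ne _ (by simp [hij])]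
  have hsolv : Group.IsSolvable h.ker := by
    refine Group.isSolvable_of_comm ?_
    rintro ⟨x, hx⟩ ⟨y, hy⟩
    apply Subtype.ext
    change x * y = y * x
    obtain ⟨d, hd⟩ := hdiag x hx
    obtain ⟨d', hd'⟩ := hdiag y hy
    apply Subtype.ext
    refine Prod.ext ?_ ?_
    · change h x * h y = h y * h x
      rw [show h x = 1 from hx, show h y = 1 from hy]
    · apply Units.ext
      change mat x * mat y = mat y * mat x
      rw [hd, hd', Matrix.diagonal_mul_diagonal, Matrix.diagonal_mul_diagonal]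
      congr 1
      funext i
      exact mul_comm _ _
  let E' : Subgroup (E × G') :=
    { carrier := {x | (x.1 : E ⧸ N) = h x.2}
      one_mem' := (map_one h).symm
      mul_mem' := by
        rintro ⟨e, x⟩ ⟨e', x'⟩ h1 h2
        change ((e * e' : E) : E ⧸ N) = h (x * x')
        rw [map_mul, QuotientGroup.mk_mul]
        exact congrArg₂ _ h1 h2
      inv_mem' := by
        rintro ⟨e, x⟩ h1
        change ((e⁻¹ : E) : E ⧸ N) = h x⁻¹
        rw [map_inv, QuotientGroup.mk_inv]
        exact congrArg _ h1 }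
  let π : E' →* E := (MonoidHom.fst _ _).comp E'.subtype
  let f' : E' →* G' := (MonoidHom.snd _ _).comp E'.subtype
  have hE' : ∀ x : E', (π x : E ⧸ N) = h (f' x) := fun x => x.2
  have hπ : Function.Surjective π := by
    intro e
    obtain ⟨x, hx⟩ := hsurj (e : E ⧸ N)
    exact ⟨⟨(e, x), hx.symm⟩, rfl⟩
  have hf' : Function.Surjective f' := by
    intro x
    obtain ⟨e, he⟩ := QuotientGroup.mk'_surjective N (h x)
    exact ⟨⟨(e, x), he⟩, rfl⟩
  refine ⟨G', E', inferInstance, inferInstance, inferInstance, inferInstance, h, π, f', hsurj, hπ,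
    hsolv, hE', ?_⟩
  intro K _ _ M _ _ hfd hgal i
  let R : (M ≃ₐ[K] M) →* Matrix (Fin n × Fin 2) (Fin n × Fin 2) K :=
    ((RingHom.mapMatrix (algebraMap (ZMod p) K)).toMonoidHom).comp (mat.comp i.toMonoidHom)
  obtain ⟨Nf, _, _, _, ι, W, h1, h2, h3, h4, h5, h6, h7⟩ := hTw K M (Fin n × Fin 2) R
  have hRap : ∀ (g : M ≃ₐ[K] M) x y, R g x y = algebraMap (ZMod p) K (mat (i g) x y) :=
    fun _ _ _ => rfl
  refine core (F := FractionRing (MvPolynomial (Fin n × Fin 2) K)) (N := Nf) hInd pb hirr a hfix'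
    hinn x₀ hx₀ ι (act.comp (h.comp i.toMonoidHom))
    (fun g j => Matrix.of fun c c' => mat (i g) (act (h (i g)) j, c) (j, c')) W h7 h3 ?_ h5 h6
    (i.symm.toMonoidHom.comp f') (i.symm.surjective.comp hf') (fun e => T (π e)) ?_ ?_ ?_ ?_
  · intro g j c
    have e1 := h4 g (act (h (i g)) j, c)
    rw [Fintype.sum_prod_type, Finset.sum_eq_single j] at e1
    · exact e1
    · intro k _ hk
      refine Finset.sum_eq_zero fun m _ => ?_
      obtain ⟨e, B, -, hB, -⟩ := hmem (i g)
      rw [hRap, hB, blk_apply_ne]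
      · simp
      · intro h8
        exact hk ((act (h (i g))).injective h8).symm
    · intro h8
      exact absurd (Finset.mem_univ _) h8
  · intro e e' j
    change T (π (e * e')) j = T (π e) (act (h (i (i.symm (f' e')))) j) * T (π e') j
    rw [map_mul, hT1, hE', MulEquiv.apply_symm_apply]
  · intro m hm j
    refine hTN (π m) ?_ j
    have h8 : f' m = 1 := by
      have h9 : i.symm (f' m) = 1 := hm
      rwa [map_eq_one_iff _ i.symm.injective] at h9
    rw [hE', h8, map_one]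
  · intro e τ hτ
    obtain ⟨e₁, ⟨he₁, he₂⟩, he₃⟩ := hT3 (π e) τ (fun j => by
      obtain ⟨s, hs⟩ := hτ j
      exact ⟨s, hs.symm⟩)
    have h8 : (e₁ : E ⧸ N) = h (f' e) := by rw [he₁, hE']
    refine ⟨⟨(e₁, f' e), h8⟩, ⟨rfl, he₂⟩, ?_⟩
    intro b hb
    have h9 : f' b = f' e := i.symm.injective hb.1
    have h10 : π b = e₁ := he₃ (π b) ⟨by rw [hE', h9, ← hE'], hb.2⟩
    apply Subtype.ext
    exact Prod.ext h10 h9
  · intro e j
    change (Matrix.of fun c c' => mat (i (i.symm (f' e)))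
      (act (h (i (i.symm (f' e)))) j, c) (j, c')).det ≠ 0 ∧ _
    obtain ⟨e₀, B, he₀, hB, hMB⟩ := hmem (f' e)
    have h8 : (Matrix.of fun c c' => mat (i (i.symm (f' e)))
        (act (h (i (i.symm (f' e)))) j, c) (j, c')) = B j := by
      ext c c'
      rw [Matrix.of_apply, MulEquiv.apply_symm_apply, hB, blk_apply]
    have h9 : MB (p := p) a (T (π e) j) (B j) := by
      have h10 : ((e₀⁻¹ * π e : E) : E ⧸ N) = 1 := by
        rw [QuotientGroup.mk_mul, QuotientGroup.mk_inv, he₀, hE', inv_mul_cancel]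
      obtain ⟨s, hs⟩ := hTN _ h10 j
      have h11 := hT1 e₀ (e₀⁻¹ * π e) j
      rw [h10, map_one, Perm.one_apply, mul_inv_cancel_left, hs] at h11
      rw [h11]
      exact MB_mul_conj a hfix (hMB j)
    have h12 : MB (p := p) a (T (π e) j) (Matrix.of fun c c' => mat (i (i.symm (f' e)))
        (act (h (i (i.symm (f' e)))) j, c) (j, c')) := by
      rw [h8]
      exact h9
    exact h12

/-- Embedding problems with kernel a power of a group with a GA realisation, after an extension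
with abelian kernel. -/
theorem occurs_ga (hTw : TwistStmt) (hMob : MobStmt) (hCst : CstStmt) (hOrb : OrbStmt)
    (hInd : IndStmt) {p : ℕ} [Fact p.Prime] (hS : SolvS p) {S : Type} [Group S]
    (hga : HasGA p S) {n : ℕ} {E : Type} [Group E] [Finite E] (N : Subgroup E) [N.Normal]
    (φ : N ≃* (Fin n → S)) (hG : OccursRegularly (E ⧸ N) (ZMod p)) :
    Occurs E (RatFunc (ZMod p)) := by
  obtain ⟨hfin, hsim, hnc, L₀, _, _, a, ha, hfix⟩ := hga
  obtain ⟨G', E', _, _, _, _, h, π, f', hh, hπ, hsolv, -, hsol⟩ :=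
    solvesOver_ga hTw hMob hCst hOrb hInd hnc a ha hfix N φ
  have h1 : OccursRegularly G' (ZMod p) := hS (E ⧸ N) G' h hh hsolv hG
  have hH : IsHilbertian (RatFunc (ZMod p)) := MP7fR.isHilbertian_ratFunc (ZMod p)
  have h2 := MP7fE.solves_of_mv hH f' _ (hsol (RatFunc (ZMod p)))
  have h3 : Occurs E' (RatFunc (ZMod p)) := h2.occurs h1.occurs
  exact MP7fS.occurs_of_surjective h3 π hπ

/-- **Closure, kernel a power of a group with a GA realisation.** -/
theorem occ_ga (hTw : TwistStmt) (hMob : MobStmt) (hCst : CstStmt) (hOrb : OrbStmt)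
    (hInd : IndStmt) {p : ℕ} [Fact p.Prime] (hS : SolvS p) : GAStep p := by
  intro E G _ _ _ _ f hf S _ _ κ _ hga hθ hocc
  obtain ⟨θ⟩ := hθ
  obtain ⟨m, ⟨e⟩⟩ := Finite.exists_equiv_fin κ
  set r := (Nat.card (Abelianization E)).primeFactors.card + 1 with hr
  have hfr := MP7fE.powHom_surjective r f hf
  have hocc' : OccursRegularly (Fin r → G) (ZMod p) := MP7fE.occursRegularly_pow hocc r
  let e₁ : (MP7fE.powHom r f).ker ≃* (Fin r → f.ker) :=
    (MulEquiv.ofBijective (MP7fE.kerPow r f) ⟨MP7fE.kerPow_injective r f,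
      MP7fE.kerPow_surjective r f⟩).symm
  let e₂ : (Fin r → f.ker) ≃* (Fin r → Fin m → S) :=
    MulEquiv.piCongrRight fun _ => θ.trans
      { toFun := fun x i => x (e.symm i)
        invFun := fun x i => x (e i)
        left_inv := fun x => by funext i; simp
        right_inv := fun x => by funext i; simp
        map_mul' := fun _ _ => rfl }
  have φ : (MP7fE.powHom r f).ker ≃* (Fin (r * m) → S) :=
    (e₁.trans e₂).trans (MP7fE.powPow S r m)
  have hq : OccursRegularly ((Fin r → E) ⧸ (MP7fE.powHom r f).ker) (ZMod p) :=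
    occReg_congr (QuotientGroup.quotientKerEquivOfSurjective _ hfr).symm hocc'
  have h1 : Occurs (Fin r → E) (RatFunc (ZMod p)) :=
    occurs_ga hTw hMob hCst hOrb hInd hS hga _ φ hq
  exact (per_group (Nat.lt_succ_self _) h1).1 (ZMod p)

end MP7K.G5
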